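import Mathlib

/-! # Discrete Bessel inequality for the sampled Fourier coefficients -/

open Finset Real

namespace Pool.Agent.H115R3.Filling

/-- Sum of `exp (i π m j / N)` over `j < 2N` vanishes for `0 < |m| < 2N`. -/
lemma sum_cexp (N : ℕ) (hN : 0 < N) (m : ℤ) (hm0 : m ≠ 0) (hm : |m| < 2 * N) :
    ∑ j ∈ range (2 * N), Complex.exp ((m * (π * j / N) : ℝ) * Complex.I) = 0 := by
  set w : ℂ := Complex.exp ((m * (π / N) : ℝ) * Complex.I) with hw
  have hN' : (N : ℝ) ≠ 0 := by exact_mod_cast hN.ne'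
  have h1 : ∀ j : ℕ, Complex.exp ((m * (π * j / N) : ℝ) * Complex.I) = w ^ j := by
    intro j
    rw [hw, ← Complex.exp_nat_mul]
    congr 1
    push_cast
    ring
  simp_rw [h1]
  have h2 : w ^ (2 * N) = 1 := by
    rw [hw, ← Complex.exp_nat_mul]
    have : ((2 * N : ℕ) : ℂ) * (((m * (π / N) : ℝ) : ℂ) * Complex.I)
        = m * (2 * π * Complex.I) := by
      have hNc : (N : ℂ) ≠ 0 := by exact_mod_cast hN.ne'
      push_cast
      field_simp
    rw [this]
    exact Complex.exp_int_mul_two_pi_mul_I m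
  have h3 : w ≠ 1 := by
    intro h
    rw [hw, Complex.exp_eq_one_iff] at h
    obtain ⟨n, hn⟩ := h
    have h4 : (m * (π / N) : ℝ) = n * (2 * π) := by
      have h5 : ((m * (π / N) : ℝ) : ℂ) * Complex.I = ((n * (2 * π) : ℝ) : ℂ) * Complex.I := by
        rw [hn]; push_cast; ring
      have h6 := mul_right_cancel₀ Complex.I_ne_zero h5
      exact_mod_cast h6
    have h7 : (m : ℝ) = n * (2 * N) := by
      have hpi : π ≠ 0 := Real.pi_ne_zero
      field_simp at h4
      linarith
    have h8 : m = n * (2 * N) := by exact_mod_cast h7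
    have h9 : n ≠ 0 := by
      rintro rfl
      simp at h8
      exact hm0 h8
    have h10 : (1 : ℤ) ≤ |n| := Int.one_le_abs h9
    have h11 : |m| = |n| * (2 * N) := by
      rw [h8, abs_mul]
      congr 1
      exact abs_of_nonneg (by positivity)
    have : (0 : ℤ) < 2 * N := by positivity
    nlinarith
  have h12 := mul_neg_geom_sum w (2 * N)
  rw [h2, sub_self] at h12
  rcases mul_eq_zero.mp h12 with h | h
  · exact absurd (sub_eq_zero.mp h).symm h3
  · exact h

lemma sum_cos (N : ℕ) (hN : 0 < N) (m : ℤ) (hm0 : m ≠ 0) (hm : |m| < 2 * N) :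
    ∑ j ∈ range (2 * N), cos (m * (π * j / N)) = 0 := by
  have h := congrArg Complex.re (sum_cexp N hN m hm0 hm)
  rw [Complex.re_sum] at h
  simp only [Complex.exp_ofReal_mul_I_re, Complex.zero_re] at h
  exact h

lemma sum_sin (N : ℕ) (hN : 0 < N) (m : ℤ) (hm : |m| < 2 * N) :
    ∑ j ∈ range (2 * N), sin (m * (π * j / N)) = 0 := by
  by_cases hm0 : m = 0
  · simp [hm0]
  have h := congrArg Complex.im (sum_cexp N hN m hm0 hm)
  rw [Complex.im_sum] at h
  simp only [Complex.exp_ofReal_mul_I_im, Complex.zero_im] at h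
  exact h

lemma sum_cos_cos (N : ℕ) (hN : 0 < N) (k l : ℕ) (hk : k < N) (hl : l < N)
    (hk0 : 0 < k) :
    ∑ j ∈ range (2 * N), cos (k * (π * j / N)) * cos (l * (π * j / N))
      = if k = l then (N : ℝ) else 0 := by
  have h1 : ∀ j : ℕ, cos (k * (π * j / N)) * cos (l * (π * j / N))
      = (cos (((k : ℤ) - l : ℤ) * (π * j / N)) + cos (((k : ℤ) + l : ℤ) * (π * j / N))) / 2 := by
    intro j
    push_cast
    rw [sub_mul, add_mul, cos_sub, cos_add]
    ring
  simp_rw [h1]
  rw [← sum_div, sum_add_distrib]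
  have h2 : ∑ j ∈ range (2 * N), cos (((k : ℤ) + l : ℤ) * (π * j / N)) = 0 := by
    apply sum_cos N hN
    · omega
    · rw [abs_of_nonneg (by positivity)]; omega
  rw [h2, add_zero]
  split_ifs with h
  · subst h
    simp
  · rw [sum_cos N hN]
    · simp
    · omega
    · rw [abs_lt]; constructor <;> omega

lemma sum_sin_sin (N : ℕ) (hN : 0 < N) (k l : ℕ) (hk : k < N) (hl : l < N)
    (hk0 : 0 < k) :
    ∑ j ∈ range (2 * N), sin (k * (π * j / N)) * sin (l * (π * j / N))
      = if k = l then (N : ℝ) else 0 := by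
  have h1 : ∀ j : ℕ, sin (k * (π * j / N)) * sin (l * (π * j / N))
      = (cos (((k : ℤ) - l : ℤ) * (π * j / N)) - cos (((k : ℤ) + l : ℤ) * (π * j / N))) / 2 := by
    intro j
    push_cast
    rw [sub_mul, add_mul, cos_sub, cos_add]
    ring
  simp_rw [h1]
  rw [← sum_div, sum_sub_distrib]
  have h2 : ∑ j ∈ range (2 * N), cos (((k : ℤ) + l : ℤ) * (π * j / N)) = 0 := by
    apply sum_cos N hN
    · omega
    · rw [abs_of_nonneg (by positivity)]; omega
  rw [h2, sub_zero]
  split_ifs with h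
  · subst h
    simp
  · rw [sum_cos N hN]
    · simp
    · omega
    · rw [abs_lt]; constructor <;> omega

lemma sum_cos_sin (N : ℕ) (hN : 0 < N) (k l : ℕ) (hk : k < N) (hl : l < N) :
    ∑ j ∈ range (2 * N), cos (k * (π * j / N)) * sin (l * (π * j / N)) = 0 := by
  have h1 : ∀ j : ℕ, cos (k * (π * j / N)) * sin (l * (π * j / N))
      = (sin (((l : ℤ) - k : ℤ) * (π * j / N)) + sin (((l : ℤ) + k : ℤ) * (π * j / N))) / 2 := by
    intro j
    push_cast
    rw [sub_mul, add_mul, sin_sub, sin_add]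
    ring
  simp_rw [h1]
  rw [← sum_div, sum_add_distrib, sum_sin N hN, sum_sin N hN]
  · simp
  · rw [abs_of_nonneg (by positivity)]; omega
  · rw [abs_lt]; constructor <;> omega

/-- The sampled Fourier cosine coefficient. -/
noncomputable def fc (N : ℕ) (x : ℕ → ℝ) (k : ℕ) : ℝ :=
  (∑ j ∈ range (2 * N), x j * cos (k * (π * j / N))) / N

/-- The sampled Fourier sine coefficient. -/
noncomputable def fs (N : ℕ) (x : ℕ → ℝ) (k : ℕ) : ℝ :=
  (∑ j ∈ range (2 * N), x j * sin (k * (π * j / N))) / N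

/-- Discrete Bessel inequality. -/
lemma bessel (N : ℕ) (hN : 0 < N) (K : Finset ℕ) (hK : ∀ k ∈ K, 0 < k ∧ k < N) (x : ℕ → ℝ) :
    ∑ k ∈ K, (fc N x k ^ 2 + fs N x k ^ 2) ≤ (∑ j ∈ range (2 * N), x j ^ 2) / N := by
  have hNr : (0 : ℝ) < N := by exact_mod_cast hN
  set y : ℕ → ℝ := fun j => ∑ k ∈ K,
    (fc N x k * cos (k * (π * j / N)) + fs N x k * sin (k * (π * j / N))) with hy
  have h0 : 0 ≤ ∑ j ∈ range (2 * N), (x j - y j) ^ 2 := sum_nonneg (fun _ _ => sq_nonneg _)
  have h1 : ∑ j ∈ range (2 * N), x j * y j = N * ∑ k ∈ K, (fc N x k ^ 2 + fs N x k ^ 2) := by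
    have e1 : ∀ j, x j * y j = ∑ k ∈ K, (fc N x k * (x j * cos (k * (π * j / N)))
        + fs N x k * (x j * sin (k * (π * j / N)))) := by
      intro j
      rw [hy]
      simp only
      rw [mul_sum]
      apply sum_congr rfl
      intro k _
      ring
    simp_rw [e1]
    rw [sum_comm, mul_sum]
    apply sum_congr rfl
    intro k _
    rw [sum_add_distrib, ← mul_sum, ← mul_sum]
    have e2 : ∑ j ∈ range (2 * N), x j * cos (k * (π * j / N)) = N * fc N x k := by
      rw [fc]; field_simp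
    have e3 : ∑ j ∈ range (2 * N), x j * sin (k * (π * j / N)) = N * fs N x k := by
      rw [fs]; field_simp
    rw [e2, e3]
    ring
  have h2 : ∑ j ∈ range (2 * N), y j * y j = N * ∑ k ∈ K, (fc N x k ^ 2 + fs N x k ^ 2) := by
    have e1 : ∀ j, y j * y j = ∑ k ∈ K, ∑ l ∈ K,
        (fc N x k * fc N x l * (cos (k * (π * j / N)) * cos (l * (π * j / N)))
        + fc N x k * fs N x l * (cos (k * (π * j / N)) * sin (l * (π * j / N)))
        + fs N x k * fc N x l * (cos (l * (π * j / N)) * sin (k * (π * j / N)))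
        + fs N x k * fs N x l * (sin (k * (π * j / N)) * sin (l * (π * j / N)))) := by
      intro j
      rw [hy]
      simp only
      rw [sum_mul_sum]
      apply sum_congr rfl
      intro k _
      apply sum_congr rfl
      intro l _
      ring
    simp_rw [e1]
    rw [sum_comm, mul_sum]
    apply sum_congr rfl
    intro k hk
    rw [sum_comm]
    simp_rw [sum_add_distrib, ← mul_sum]
    have hk' := hK k hk
    have e2 : ∀ l ∈ K, (fc N x k * fc N x l *
          ∑ j ∈ range (2 * N), cos (k * (π * j / N)) * cos (l * (π * j / N))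
        + fc N x k * fs N x l *
          ∑ j ∈ range (2 * N), cos (k * (π * j / N)) * sin (l * (π * j / N))
        + fs N x k * fc N x l *
          ∑ j ∈ range (2 * N), cos (l * (π * j / N)) * sin (k * (π * j / N))
        + fs N x k * fs N x l *
          ∑ j ∈ range (2 * N), sin (k * (π * j / N)) * sin (l * (π * j / N)))
        = if k = l then N * (fc N x k ^ 2 + fs N x k ^ 2) else 0 := by
      intro l hl
      have hl' := hK l hl
      rw [sum_cos_cos N hN k l hk'.2 hl'.2 hk'.1, sum_cos_sin N hN k l hk'.2 hl'.2,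
        sum_cos_sin N hN l k hl'.2 hk'.2, sum_sin_sin N hN k l hk'.2 hl'.2 hk'.1]
      split_ifs with h
      · subst h; ring
      · ring
    simp_rw [← sum_add_distrib]
    rw [sum_congr rfl e2, sum_ite_eq, if_pos hk]
  have h3 : ∑ j ∈ range (2 * N), (x j - y j) ^ 2
      = ∑ j ∈ range (2 * N), x j ^ 2 - 2 * ∑ j ∈ range (2 * N), x j * y j
        + ∑ j ∈ range (2 * N), y j * y j := by
    rw [mul_sum, ← sum_sub_distrib, ← sum_add_distrib]
    apply sum_congr rfl
    intro j _
    ring
  rw [h3, h1, h2] at h0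
  rw [le_div_iff₀ hNr]
  linarith

end Pool.Agent.H115R3.Filling
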