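import Mathlib
import Pool.Agent.H115R3.Filling.Fourier

/-! # Sampled Fourier coefficients of the distance functions of the circle -/

open Finset Real MeasureTheory Filter Topology Set

namespace Pool.Agent.H115R3.Filling

/-- The distance to zero on the circle of length `2π`. -/
noncomputable def rho (x : ℝ) : ℝ := ‖(x : AddCircle (2 * π))‖

lemma two_pi_ne : (2 * π : ℝ) ≠ 0 := by positivity

lemma rho_nonneg (x : ℝ) : 0 ≤ rho x := norm_nonneg _

lemma rho_le (x : ℝ) : rho x ≤ π := by
  have h := AddCircle.norm_le_half_period (2 * π) two_pi_ne (x := (x : AddCircle (2 * π)))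
  rw [abs_of_pos (by positivity)] at h
  unfold rho
  linarith

lemma rho_periodic : Function.Periodic rho (2 * π) := by
  intro x
  unfold rho
  rw [AddCircle.coe_add_period]

lemma rho_sub_le (x y : ℝ) : |rho x - rho y| ≤ |x - y| := by
  unfold rho
  calc |‖(x : AddCircle (2 * π))‖ - ‖(y : AddCircle (2 * π))‖|
      ≤ ‖(x : AddCircle (2 * π)) - (y : AddCircle (2 * π))‖ := abs_norm_sub_norm_le _ _
    _ = ‖((x - y : ℝ) : AddCircle (2 * π))‖ := by rw [AddCircle.coe_sub]
    _ ≤ ‖x - y‖ := QuotientAddGroup.norm_mk_le_norm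
    _ = |x - y| := Real.norm_eq_abs _

lemma rho_continuous : Continuous rho := by
  have : LipschitzWith 1 rho := by
    apply LipschitzWith.of_dist_le_mul
    intro x y
    rw [Real.dist_eq, Real.dist_eq, NNReal.coe_one, one_mul]
    exact rho_sub_le x y
  exact this.continuous

lemma rho_eq_self {x : ℝ} (h0 : 0 ≤ x) (h1 : x ≤ π) : rho x = x := by
  unfold rho
  rw [(AddCircle.norm_coe_eq_abs_iff (2 * π) two_pi_ne).mpr]
  · exact abs_of_nonneg h0
  · rw [abs_of_nonneg h0, abs_of_pos (by positivity)]
    linarith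

lemma rho_neg (x : ℝ) : rho (-x) = rho x := by
  unfold rho
  rw [AddCircle.coe_neg, norm_neg]

lemma rho_reflect (x : ℝ) : rho (2 * π - x) = rho x := by
  rw [← rho_neg x, ← rho_periodic (-x)]
  congr 1
  ring

lemma dist_eq_rho (x y : ℝ) : dist (x : AddCircle (2 * π)) (y : AddCircle (2 * π)) = rho (x - y) := by
  rw [dist_eq_norm, ← AddCircle.coe_sub]
  rfl

lemma integral_rho_reflect (F : ℝ → ℝ) :
    ∫ x in π..(2 * π), rho x * F x = ∫ x in (0 : ℝ)..π, rho x * F (2 * π - x) := by
  have h := intervalIntegral.integral_comp_sub_left (a := 0) (b := π)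
    (fun x => rho x * F x) (2 * π)
  rw [sub_zero, show 2 * π - π = π by ring] at h
  rw [← h]
  apply intervalIntegral.integral_congr
  intro x _
  simp only
  rw [rho_reflect]

lemma integral_x_cos {k : ℕ} (hk : Odd k) : ∫ x in (0 : ℝ)..π, x * cos (k * x) = -2 / k ^ 2 := by
  have hk0 : (k : ℝ) ≠ 0 := by
    have : k ≠ 0 := by rintro rfl; simp at hk
    exact_mod_cast this
  have hd : ∀ x ∈ Set.uIcc (0 : ℝ) π, HasDerivAt
      (fun x => x * sin (k * x) / k + cos (k * x) / k ^ 2) (x * cos (k * x)) x := by
    intro x _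
    have h1 : HasDerivAt (fun x => (k : ℝ) * x) k x := by
      simpa using (hasDerivAt_id x).const_mul (k : ℝ)
    have h2 := ((hasDerivAt_id x).mul h1.sin).div_const (k : ℝ)
    have h3 := h1.cos.div_const ((k : ℝ) ^ 2)
    have h4 := h2.add h3
    refine h4.congr_deriv ?_
    simp only [id_eq]
    field_simp
    ring
  rw [intervalIntegral.integral_eq_sub_of_hasDerivAt hd]
  · have h1 : sin (k * π) = 0 := sin_nat_mul_pi k
    have h2 : cos (k * π) = -1 := by
      rw [cos_nat_mul_pi, hk.neg_one_pow]
    rw [h1, h2]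
    simp
    ring
  · apply Continuous.intervalIntegrable
    fun_prop

lemma Ic {k : ℕ} (hk : Odd k) : ∫ x in (0 : ℝ)..(2 * π), rho x * cos (k * x) = -4 / k ^ 2 := by
  have hint : ∀ a b : ℝ, IntervalIntegrable (fun x => rho x * cos (k * x)) volume a b := by
    intro a b
    apply Continuous.intervalIntegrable
    exact rho_continuous.mul (by fun_prop)
  rw [← intervalIntegral.integral_add_adjacent_intervals (hint 0 π) (hint π (2 * π)),
    integral_rho_reflect (fun x => cos (k * x))]
  have h1 : ∀ x, cos (k * (2 * π - x)) = cos (k * x) := by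
    intro x
    rw [mul_sub, show (k : ℝ) * (2 * π) = k * (2 * π) by rfl, cos_nat_mul_two_pi_sub]
  simp_rw [h1]
  have h2 : ∫ x in (0 : ℝ)..π, rho x * cos (k * x) = ∫ x in (0 : ℝ)..π, x * cos (k * x) := by
    apply intervalIntegral.integral_congr
    intro x hx
    rw [Set.uIcc_of_le pi_pos.le] at hx
    simp only
    rw [rho_eq_self hx.1 hx.2]
  rw [h2, integral_x_cos hk]
  ring

lemma Is (k : ℕ) : ∫ x in (0 : ℝ)..(2 * π), rho x * sin (k * x) = 0 := by
  have hint : ∀ a b : ℝ, IntervalIntegrable (fun x => rho x * sin (k * x)) volume a b := by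
    intro a b
    apply Continuous.intervalIntegrable
    exact rho_continuous.mul (by fun_prop)
  rw [← intervalIntegral.integral_add_adjacent_intervals (hint 0 π) (hint π (2 * π)),
    integral_rho_reflect (fun x => sin (k * x))]
  have h1 : ∀ x, sin (k * (2 * π - x)) = -sin (k * x) := by
    intro x
    rw [mul_sub, sin_nat_mul_two_pi_sub]
  simp_rw [h1, mul_neg]
  rw [intervalIntegral.integral_neg]
  ring

lemma Ic_shift {k : ℕ} (hk : Odd k) (t : ℝ) :
    ∫ x in (0 : ℝ)..(2 * π), rho (x - t) * cos (k * x) = -4 / k ^ 2 * cos (k * t) := by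
  have h1 : ∫ x in (0 : ℝ)..(2 * π), rho (x - t) * cos (k * x)
      = ∫ x in (-t)..(2 * π - t), rho x * cos (k * (x + t)) := by
    have := intervalIntegral.integral_comp_sub_right (a := 0) (b := 2 * π)
      (fun x => rho x * cos (k * (x + t))) t
    rw [zero_sub] at this
    rw [← this]
    apply intervalIntegral.integral_congr
    intro x _
    simp
  have hper : Function.Periodic (fun x => rho x * cos (k * (x + t))) (2 * π) := by
    intro x
    simp only
    rw [rho_periodic x]
    congr 1
    have : (k : ℝ) * (x + 2 * π + t) = k * (x + t) + k * (2 * π) := by ring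
    rw [this, cos_add_nat_mul_two_pi]
  have h2 := hper.intervalIntegral_add_eq (-t) 0
  rw [h1, show 2 * π - t = -t + 2 * π by ring, h2, zero_add]
  have h3 : ∀ x, rho x * cos (k * (x + t))
      = cos (k * t) * (rho x * cos (k * x)) - sin (k * t) * (rho x * sin (k * x)) := by
    intro x
    rw [mul_add, cos_add]
    ring
  simp_rw [h3]
  rw [intervalIntegral.integral_sub, intervalIntegral.integral_const_mul,
    intervalIntegral.integral_const_mul, Ic hk, Is]
  · ring
  · apply Continuous.intervalIntegrable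
    exact continuous_const.mul (rho_continuous.mul (by fun_prop))
  · apply Continuous.intervalIntegrable
    exact continuous_const.mul (rho_continuous.mul (by fun_prop))

lemma Is_shift {k : ℕ} (hk : Odd k) (t : ℝ) :
    ∫ x in (0 : ℝ)..(2 * π), rho (x - t) * sin (k * x) = -4 / k ^ 2 * sin (k * t) := by
  have h1 : ∫ x in (0 : ℝ)..(2 * π), rho (x - t) * sin (k * x)
      = ∫ x in (-t)..(2 * π - t), rho x * sin (k * (x + t)) := by
    have := intervalIntegral.integral_comp_sub_right (a := 0) (b := 2 * π)
      (fun x => rho x * sin (k * (x + t))) t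
    rw [zero_sub] at this
    rw [← this]
    apply intervalIntegral.integral_congr
    intro x _
    simp
  have hper : Function.Periodic (fun x => rho x * sin (k * (x + t))) (2 * π) := by
    intro x
    simp only
    rw [rho_periodic x]
    congr 1
    have : (k : ℝ) * (x + 2 * π + t) = k * (x + t) + k * (2 * π) := by ring
    rw [this, sin_add_nat_mul_two_pi]
  have h2 := hper.intervalIntegral_add_eq (-t) 0
  rw [h1, show 2 * π - t = -t + 2 * π by ring, h2, zero_add]
  have h3 : ∀ x, rho x * sin (k * (x + t))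
      = cos (k * t) * (rho x * sin (k * x)) + sin (k * t) * (rho x * cos (k * x)) := by
    intro x
    rw [mul_add, sin_add]
    ring
  simp_rw [h3]
  rw [intervalIntegral.integral_add, intervalIntegral.integral_const_mul,
    intervalIntegral.integral_const_mul, Ic hk, Is]
  · ring
  · apply Continuous.intervalIntegrable
    exact continuous_const.mul (rho_continuous.mul (by fun_prop))
  · apply Continuous.intervalIntegrable
    exact continuous_const.mul (rho_continuous.mul (by fun_prop))

/-- Error of left Riemann sums for a Lipschitz function. -/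
lemma riemann_error (φ : ℝ → ℝ) (hφ : Continuous φ) (Λ h : ℝ) (hh : 0 ≤ h) (hΛ : 0 ≤ Λ)
    (hL : ∀ x y, |φ x - φ y| ≤ Λ * |x - y|) (m : ℕ) :
    |(∑ j ∈ range m, φ (j * h)) * h - ∫ x in (0 : ℝ)..(m * h), φ x| ≤ m * (Λ * h * h) := by
  have h1 : ∫ x in (0 : ℝ)..(m * h), φ x
      = ∑ j ∈ range m, ∫ x in (j * h)..((j + 1 : ℕ) * h), φ x := by
    have := intervalIntegral.sum_integral_adjacent_intervals (f := φ) (μ := volume)
      (a := fun j : ℕ => (j : ℝ) * h) (n := m) (fun k _ => hφ.intervalIntegrable _ _)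
    rw [this]
    simp
  rw [h1, Finset.sum_mul, ← Finset.sum_sub_distrib]
  refine (Finset.abs_sum_le_sum_abs _ _).trans ?_
  have h2 : ∀ j ∈ range m, |φ (j * h) * h - ∫ x in (j * h)..((j + 1 : ℕ) * h), φ x|
      ≤ Λ * h * h := by
    intro j _
    have hle : (j : ℝ) * h ≤ ((j + 1 : ℕ) : ℝ) * h := by
      apply mul_le_mul_of_nonneg_right _ hh
      push_cast; linarith
    have e1 : φ (j * h) * h = ∫ _x in (j * h)..((j + 1 : ℕ) * h), φ (j * h) := by
      rw [intervalIntegral.integral_const, smul_eq_mul]
      push_cast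
      ring
    rw [e1, ← intervalIntegral.integral_sub (by simp) (hφ.intervalIntegrable _ _)]
    have e2 := intervalIntegral.norm_integral_le_of_norm_le_const (a := (j : ℝ) * h)
      (b := ((j + 1 : ℕ) : ℝ) * h) (C := Λ * h) (f := fun x => φ (j * h) - φ x) (fun x hx => by
        rw [Set.uIoc_of_le hle] at hx
        rw [Real.norm_eq_abs]
        refine (hL _ _).trans ?_
        apply mul_le_mul_of_nonneg_left _ hΛ
        rw [abs_le]
        have := hx.1
        have := hx.2
        push_cast at *
        constructor <;> linarith)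
    rw [Real.norm_eq_abs] at e2
    refine e2.trans (le_of_eq ?_)
    have : ((j + 1 : ℕ) : ℝ) * h - j * h = h := by push_cast; ring
    rw [this, abs_of_nonneg hh]
  refine (Finset.sum_le_sum h2).trans ?_
  rw [Finset.sum_const, card_range, nsmul_eq_mul]

/-- The values at the sample point `j` of the distance function to `t`. -/
noncomputable def samp (N : ℕ) (t : ℝ) (j : ℕ) : ℝ := rho (π * j / N - t)

lemma fc_samp {N k : ℕ} (hN : 0 < N) (hk : Odd k) (t : ℝ) :
    |fc N (samp N t) k - (-4 / (π * k ^ 2)) * cos (k * t)| ≤ 2 * π * (1 + π * k) / N := by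
  have hNr : (0 : ℝ) < N := by exact_mod_cast hN
  set φ : ℝ → ℝ := fun x => rho (x - t) * cos (k * x) with hφ
  have hφc : Continuous φ := (rho_continuous.comp (by fun_prop)).mul (by fun_prop)
  have hL : ∀ x y, |φ x - φ y| ≤ (1 + π * k) * |x - y| := by
    intro x y
    have e1 : φ x - φ y = (rho (x - t) - rho (y - t)) * cos (k * x)
        + rho (y - t) * (cos (k * x) - cos (k * y)) := by simp only [hφ]; ring
    rw [e1]
    refine (abs_add_le _ _).trans ?_
    rw [abs_mul, abs_mul]
    have e2 : |rho (x - t) - rho (y - t)| ≤ |x - y| := by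
      have := rho_sub_le (x - t) (y - t)
      simpa using this
    have e3 : |cos (k * x)| ≤ 1 := abs_cos_le_one _
    have e4 : |rho (y - t)| ≤ π := by
      rw [abs_of_nonneg (rho_nonneg _)]; exact rho_le _
    have e5 : |cos (k * x) - cos (k * y)| ≤ k * |x - y| := by
      refine (abs_cos_sub_cos_le _ _).trans (le_of_eq ?_)
      rw [← mul_sub, abs_mul, Nat.abs_cast]
    have e6 := mul_le_mul e2 e3 (abs_nonneg _) (abs_nonneg _)
    have e7 := mul_le_mul e4 e5 (abs_nonneg _) pi_pos.le
    nlinarith
  have h1 := riemann_error φ hφc (1 + π * k) (π / N) (by positivity) (by positivity) hL (2 * N)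
  have h2 : ((2 * N : ℕ) : ℝ) * (π / N) = 2 * π := by
    push_cast; field_simp
  rw [h2] at h1
  rw [Ic_shift hk t] at h1
  have h3 : (∑ j ∈ range (2 * N), φ (j * (π / N))) * (π / N) = π * fc N (samp N t) k := by
    unfold fc samp
    have : ∀ j : ℕ, (j : ℝ) * (π / N) = π * j / N := by intro j; ring
    simp only [hφ, this]
    ring
  rw [h3] at h1
  have h4 : π * fc N (samp N t) k - -4 / (k : ℝ) ^ 2 * cos (k * t)
      = π * (fc N (samp N t) k - (-4 / (π * k ^ 2)) * cos (k * t)) := by
    have hk0 : (k : ℝ) ≠ 0 := by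
      have : k ≠ 0 := by rintro rfl; simp at hk
      exact_mod_cast this
    field_simp
  rw [h4, abs_mul, abs_of_pos pi_pos] at h1
  have h5 : ((2 * N : ℕ) : ℝ) * ((1 + π * k) * (π / N) * (π / N))
      = π * (2 * π * (1 + π * k) / N) := by
    push_cast; field_simp
  rw [h5] at h1
  exact le_of_mul_le_mul_left h1 pi_pos

lemma fs_samp {N k : ℕ} (hN : 0 < N) (hk : Odd k) (t : ℝ) :
    |fs N (samp N t) k - (-4 / (π * k ^ 2)) * sin (k * t)| ≤ 2 * π * (1 + π * k) / N := by
  have hNr : (0 : ℝ) < N := by exact_mod_cast hN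
  set φ : ℝ → ℝ := fun x => rho (x - t) * sin (k * x) with hφ
  have hφc : Continuous φ := (rho_continuous.comp (by fun_prop)).mul (by fun_prop)
  have hL : ∀ x y, |φ x - φ y| ≤ (1 + π * k) * |x - y| := by
    intro x y
    have e1 : φ x - φ y = (rho (x - t) - rho (y - t)) * sin (k * x)
        + rho (y - t) * (sin (k * x) - sin (k * y)) := by simp only [hφ]; ring
    rw [e1]
    refine (abs_add_le _ _).trans ?_
    rw [abs_mul, abs_mul]
    have e2 : |rho (x - t) - rho (y - t)| ≤ |x - y| := by
      have := rho_sub_le (x - t) (y - t)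
      simpa using this
    have e3 : |sin (k * x)| ≤ 1 := abs_sin_le_one _
    have e4 : |rho (y - t)| ≤ π := by
      rw [abs_of_nonneg (rho_nonneg _)]; exact rho_le _
    have e5 : |sin (k * x) - sin (k * y)| ≤ k * |x - y| := by
      refine (abs_sin_sub_sin_le _ _).trans (le_of_eq ?_)
      rw [← mul_sub, abs_mul, Nat.abs_cast]
    have e6 := mul_le_mul e2 e3 (abs_nonneg _) (abs_nonneg _)
    have e7 := mul_le_mul e4 e5 (abs_nonneg _) pi_pos.le
    nlinarith
  have h1 := riemann_error φ hφc (1 + π * k) (π / N) (by positivity) (by positivity) hL (2 * N)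
  have h2 : ((2 * N : ℕ) : ℝ) * (π / N) = 2 * π := by
    push_cast; field_simp
  rw [h2] at h1
  rw [Is_shift hk t] at h1
  have h3 : (∑ j ∈ range (2 * N), φ (j * (π / N))) * (π / N) = π * fs N (samp N t) k := by
    unfold fs samp
    have : ∀ j : ℕ, (j : ℝ) * (π / N) = π * j / N := by intro j; ring
    simp only [hφ, this]
    ring
  rw [h3] at h1
  have h4 : π * fs N (samp N t) k - -4 / (k : ℝ) ^ 2 * sin (k * t)
      = π * (fs N (samp N t) k - (-4 / (π * k ^ 2)) * sin (k * t)) := by
    have hk0 : (k : ℝ) ≠ 0 := by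
      have : k ≠ 0 := by rintro rfl; simp at hk
      exact_mod_cast this
    field_simp
  rw [h4, abs_mul, abs_of_pos pi_pos] at h1
  have h5 : ((2 * N : ℕ) : ℝ) * ((1 + π * k) * (π / N) * (π / N))
      = π * (2 * π * (1 + π * k) / N) := by
    push_cast; field_simp
  rw [h5] at h1
  exact le_of_mul_le_mul_left h1 pi_pos

end Pool.Agent.H115R3.Filling
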