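import Mathlib

/-!
# Squared oriented Riemannian surfaces with boundary a circle

A compact oriented Riemannian surface is presented by finitely many faces, each parametrised by
the closed unit square and carrying a continuous Riemannian metric, glued along their sides in an
orientation compatible way; the unglued sides make up the boundary, which is parametrised by the
circle of length `2π`.
-/

namespace Pool.Agent.H115R3.Filling

/-- The closed unit square. -/
def Sq : Set (ℝ × ℝ) := Set.Icc (0 : ℝ) 1 ×ˢ Set.Icc (0 : ℝ) 1

/-- The four sides of the unit square, traversed counterclockwise for `t` from `0` to `1`. -/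
def side : Fin 4 → ℝ → ℝ × ℝ
  | 0, t => (t, 0)
  | 1, t => (1, t)
  | 2, t => (1 - t, 1)
  | 3, t => (0, 1 - t)

/-- A continuous Riemannian metric `E dx² + 2 F dx dy + G dy²` on the closed unit square. -/
structure RiemMetric where
  /-- coefficient of `dx²` -/
  E : ℝ × ℝ → ℝ
  /-- half the coefficient of `dx dy` -/
  F : ℝ × ℝ → ℝ
  /-- coefficient of `dy²` -/
  G : ℝ × ℝ → ℝ
  continuousOn_E : ContinuousOn E Sq
  continuousOn_F : ContinuousOn F Sq
  continuousOn_G : ContinuousOn G Sq
  pos_E : ∀ p ∈ Sq, 0 < E p
  pos_det : ∀ p ∈ Sq, 0 < E p * G p - F p ^ 2

/-- The Riemannian norm of the tangent vector `v` at the point `p`. -/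
noncomputable def RiemMetric.norm (g : RiemMetric) (p v : ℝ × ℝ) : ℝ :=
  √(g.E p * v.1 ^ 2 + 2 * g.F p * v.1 * v.2 + g.G p * v.2 ^ 2)

/-- The Riemannian length of the straight segment from `p` to `q` in the square. -/
noncomputable def RiemMetric.segLength (g : RiemMetric) (p q : ℝ × ℝ) : ℝ :=
  ∫ t in (0 : ℝ)..1, g.norm (p + t • (q - p)) (q - p)

/-- The Riemannian area of the square. -/
noncomputable def RiemMetric.area (g : RiemMetric) : ℝ :=
  ∫ p in Sq, √(g.E p * g.G p - g.F p ^ 2)

/-- A compact oriented Riemannian surface `M` (with `dist` its path metric, or any metric that is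
at most the path metric), cut into finitely many parametrised squares, whose boundary is
parametrised by the circle `AddCircle (2π)` of length `2π`. -/
structure OrientedSurface (M : Type) [MetricSpace M] where
  /-- number of faces -/
  faces : ℕ
  /-- parametrisation of the `i`-th closed face by the unit square -/
  chart : Fin faces → ℝ × ℝ → M
  /-- the Riemannian metric of the `i`-th face, in its parametrisation -/
  metric : Fin faces → RiemMetric
  /-- the distance in `M` is at most the Riemannian length of straight segments in the charts -/
  dist_le : ∀ i, ∀ p ∈ Sq, ∀ q ∈ Sq,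
    dist (chart i p) (chart i q) ≤ (metric i).segLength p q
  /-- the sides of the faces that are interior edges of the surface -/
  interior : Finset (Fin faces × Fin 4)
  /-- the side to which an interior side is glued -/
  pair : Fin faces × Fin 4 → Fin faces × Fin 4
  pair_mem : ∀ s ∈ interior, pair s ∈ interior
  pair_pair : ∀ s ∈ interior, pair (pair s) = s
  pair_ne : ∀ s ∈ interior, pair s ≠ s
  /-- glued sides are traversed in opposite directions (orientability) -/
  glue : ∀ s ∈ interior, ∀ t ∈ Set.Icc (0 : ℝ) 1,
    chart (pair s).1 (side (pair s).2 t) = chart s.1 (side s.2 (1 - t))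
  /-- number of boundary edges -/
  arcs : ℕ
  /-- the side that is the `k`-th boundary edge -/
  arcSide : Fin arcs → Fin faces × Fin 4
  arcSide_injective : Function.Injective arcSide
  /-- the sides that are not interior are exactly the boundary edges -/
  arcSide_range : ∀ s, s ∉ interior ↔ ∃ k, arcSide k = s
  /-- the partition of `[0, 2π]` given by the boundary vertices -/
  brk : Fin (arcs + 1) → ℝ
  brk_strictMono : StrictMono brk
  brk_zero : brk 0 = 0
  brk_last : brk (Fin.last arcs) = 2 * Real.pi
  /-- parametrisation of the boundary by the circle of length `2π` -/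
  boundary : AddCircle (2 * Real.pi) → M
  /-- the `k`-th boundary edge is the arc of the circle between the `k`-th and the `(k+1)`-st
  boundary vertex -/
  boundary_eq : ∀ k : Fin arcs, ∀ u ∈ Set.Icc (0 : ℝ) 1,
    chart (arcSide k).1 (side (arcSide k).2 u) =
      boundary ((brk k.castSucc + u * (brk k.succ - brk k.castSucc) : ℝ) :
        AddCircle (2 * Real.pi))

/-- The Riemannian area of the surface. -/
noncomputable def OrientedSurface.area {M : Type} [MetricSpace M] (S : OrientedSurface M) : ℝ :=
  ∑ i, (S.metric i).area

/-- The boundary circle has no shortcuts in `M`: the distance in `M` of two boundary points is at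
least their distance along the circle of length `2π`.  If equality holds throughout, `M`
isometrically fills the circle. -/
def OrientedSurface.NoShortcut {M : Type} [MetricSpace M] (S : OrientedSurface M) : Prop :=
  ∀ x y : AddCircle (2 * Real.pi), dist x y ≤ dist (S.boundary x) (S.boundary y)

end Pool.Agent.H115R3.Filling
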