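import Mathlib
import Pool.Agent.H115R3.Filling.Fourier

/-! # The pointwise (calibration) inequality -/

open Finset Real

namespace Pool.Agent.H115R3.Filling

lemma fc_lin (N : ℕ) (x y : ℕ → ℝ) (s t : ℝ) (k : ℕ) :
    fc N (fun j => s * x j + t * y j) k = s * fc N x k + t * fc N y k := by
  unfold fc
  have : ∑ j ∈ range (2 * N), (s * x j + t * y j) * cos (k * (π * j / N))
      = s * ∑ j ∈ range (2 * N), x j * cos (k * (π * j / N))
        + t * ∑ j ∈ range (2 * N), y j * cos (k * (π * j / N)) := by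
    rw [mul_sum, mul_sum, ← sum_add_distrib]
    apply sum_congr rfl
    intro j _
    ring
  rw [this]
  ring

lemma fs_lin (N : ℕ) (x y : ℕ → ℝ) (s t : ℝ) (k : ℕ) :
    fs N (fun j => s * x j + t * y j) k = s * fs N x k + t * fs N y k := by
  unfold fs
  have : ∑ j ∈ range (2 * N), (s * x j + t * y j) * sin (k * (π * j / N))
      = s * ∑ j ∈ range (2 * N), x j * sin (k * (π * j / N))
        + t * ∑ j ∈ range (2 * N), y j * sin (k * (π * j / N)) := by
    rw [mul_sum, mul_sum, ← sum_add_distrib]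
    apply sum_congr rfl
    intro j _
    ring
  rw [this]
  ring

/-- If all the covectors `(a j, b j)` have dual norm at most one for the metric `(E, F, G)` then
the sum of the Jacobians of the sampled Fourier coefficients is at most the area density. -/
lemma pointwise_le (N : ℕ) (hN : 0 < N) (K : Finset ℕ) (hK : ∀ k ∈ K, 0 < k ∧ k < N)
    (E F G : ℝ) (hE : 0 < E) (hD : 0 < E * G - F ^ 2) (a b : ℕ → ℝ)
    (hab : ∀ j v w, (a j * v + b j * w) ^ 2 ≤ E * v ^ 2 + 2 * F * v * w + G * w ^ 2) :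
    ∑ k ∈ K, (fc N a k * fs N b k - fc N b k * fs N a k) ≤ √(E * G - F ^ 2) := by
  set D : ℝ := √(E * G - F ^ 2) with hDdef
  have hDpos : 0 < D := Real.sqrt_pos.mpr hD
  have hD2 : D ^ 2 = E * G - F ^ 2 := Real.sq_sqrt hD.le
  have hNr : (0 : ℝ) < N := by exact_mod_cast hN
  -- dual norm bound
  have hq : ∀ j, (E * b j - F * a j) ^ 2 + D ^ 2 * a j ^ 2 ≤ E * D ^ 2 := by
    intro j
    have h1 := hab j (G * a j - F * b j) (E * b j - F * a j)
    set q : ℝ := G * a j ^ 2 - 2 * F * a j * b j + E * b j ^ 2 with hqd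
    have h2 : a j * (G * a j - F * b j) + b j * (E * b j - F * a j) = q := by
      rw [hqd]; ring
    have h3 : E * (G * a j - F * b j) ^ 2
        + 2 * F * (G * a j - F * b j) * (E * b j - F * a j) + G * (E * b j - F * a j) ^ 2
        = (E * G - F ^ 2) * q := by
      rw [hqd]; ring
    rw [h2, h3, ← hD2] at h1
    have h4 : q ≤ D ^ 2 := by
      by_contra hlt
      push Not at hlt
      have : 0 < D ^ 2 := by positivity
      nlinarith
    have h5 : (E * b j - F * a j) ^ 2 + D ^ 2 * a j ^ 2 = E * q := by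
      rw [hD2, hqd]; ring
    rw [h5]
    exact mul_le_mul_of_nonneg_left h4 hE.le
  have hb1 := bessel N hN K hK (fun j => E * b j + (-F) * a j)
  have hb2 := bessel N hN K hK a
  have h6 : ∀ k ∈ K, 2 * D * E * (fc N a k * fs N b k - fc N b k * fs N a k)
      ≤ (fc N (fun j => E * b j + (-F) * a j) k ^ 2 + fs N (fun j => E * b j + (-F) * a j) k ^ 2)
        + D ^ 2 * (fc N a k ^ 2 + fs N a k ^ 2) := by
    intro k _
    rw [fc_lin, fs_lin]
    have e1 := sq_nonneg (D * fc N a k - (E * fs N b k + -F * fs N a k))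
    have e2 := sq_nonneg (D * fs N a k + (E * fc N b k + -F * fc N a k))
    nlinarith
  have h7 := sum_le_sum h6
  rw [← mul_sum, sum_add_distrib, ← mul_sum] at h7
  have h8 : (∑ j ∈ range (2 * N), (fun j => E * b j + (-F) * a j) j ^ 2) / N
      + D ^ 2 * ((∑ j ∈ range (2 * N), a j ^ 2) / N) ≤ 2 * (E * D ^ 2) := by
    have e1 : (∑ j ∈ range (2 * N), (fun j => E * b j + (-F) * a j) j ^ 2) / N
      + D ^ 2 * ((∑ j ∈ range (2 * N), a j ^ 2) / N)
      = (∑ j ∈ range (2 * N), ((E * b j - F * a j) ^ 2 + D ^ 2 * a j ^ 2)) / N := by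
      rw [← mul_div_assoc, ← add_div, mul_sum, ← sum_add_distrib]
      congr 1
      apply sum_congr rfl
      intro j _
      ring
    rw [e1, div_le_iff₀ hNr]
    calc ∑ j ∈ range (2 * N), ((E * b j - F * a j) ^ 2 + D ^ 2 * a j ^ 2)
        ≤ ∑ _j ∈ range (2 * N), E * D ^ 2 := sum_le_sum (fun j _ => hq j)
      _ = 2 * (E * D ^ 2) * N := by
        rw [sum_const, card_range, nsmul_eq_mul]
        push_cast
        ring
  have h9 : D ^ 2 * ∑ k ∈ K, (fc N a k ^ 2 + fs N a k ^ 2)
      ≤ D ^ 2 * ((∑ j ∈ range (2 * N), a j ^ 2) / N) :=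
    mul_le_mul_of_nonneg_left hb2 (by positivity)
  have h10 : 2 * D * E * ∑ k ∈ K, (fc N a k * fs N b k - fc N b k * fs N a k)
      ≤ 2 * D * E * D := by
    calc _ ≤ _ := h7
      _ ≤ _ := add_le_add hb1 h9
      _ ≤ _ := h8
      _ = _ := by ring
  exact le_of_mul_le_mul_left h10 (by positivity)

end Pool.Agent.H115R3.Filling
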