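import Mathlib
import Pool.Agent.H115R3.Filling.Defs
import Pool.Agent.H115R3.Filling.Pointwise

/-! # Analysis on one square -/

open Finset Real MeasureTheory Filter Topology Set

namespace Pool.Agent.H115R3.Filling

lemma isCompact_Sq : IsCompact Sq := isCompact_Icc.prod isCompact_Icc

lemma measurableSet_Sq : MeasurableSet Sq := isCompact_Sq.measurableSet

lemma convex_Sq : Convex ℝ Sq := (convex_Icc 0 1).prod (convex_Icc 0 1)

lemma RiemMetric.quad_nonneg (g : RiemMetric) {p : ℝ × ℝ} (hp : p ∈ Sq) (v w : ℝ) :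
    0 ≤ g.E p * v ^ 2 + 2 * g.F p * v * w + g.G p * w ^ 2 := by
  have hE := g.pos_E p hp
  have hD := g.pos_det p hp
  have h1 : 0 ≤ g.E p * (g.E p * v ^ 2 + 2 * g.F p * v * w + g.G p * w ^ 2) := by
    have : g.E p * (g.E p * v ^ 2 + 2 * g.F p * v * w + g.G p * w ^ 2)
        = (g.E p * v + g.F p * w) ^ 2 + (g.E p * g.G p - g.F p ^ 2) * w ^ 2 := by ring
    rw [this]
    positivity
  by_contra hlt
  push Not at hlt
  have := mul_neg_of_pos_of_neg hE hlt
  linarith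

/-- The Riemannian norm is bounded by a multiple of the sup norm. -/
lemma RiemMetric.exists_bound (g : RiemMetric) :
    ∃ C : ℝ, 0 ≤ C ∧ ∀ p ∈ Sq, ∀ v, g.norm p v ≤ C * ‖v‖ := by
  obtain ⟨B1, h1⟩ := isCompact_Sq.exists_bound_of_continuousOn g.continuousOn_E
  obtain ⟨B2, h2⟩ := isCompact_Sq.exists_bound_of_continuousOn g.continuousOn_F
  obtain ⟨B3, h3⟩ := isCompact_Sq.exists_bound_of_continuousOn g.continuousOn_G
  refine ⟨√(|B1| + 2 * |B2| + |B3|), Real.sqrt_nonneg _, ?_⟩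
  intro p hp v
  have hv1 : |v.1| ≤ ‖v‖ := norm_fst_le v
  have hv2 : |v.2| ≤ ‖v‖ := norm_snd_le v
  have hE : |g.E p| ≤ |B1| := (h1 p hp).trans (le_abs_self _)
  have hF : |g.F p| ≤ |B2| := (h2 p hp).trans (le_abs_self _)
  have hG : |g.G p| ≤ |B3| := (h3 p hp).trans (le_abs_self _)
  have hn := norm_nonneg v
  have hsq1 : v.1 ^ 2 ≤ ‖v‖ ^ 2 := by
    rw [← sq_abs]; exact pow_le_pow_left₀ (abs_nonneg _) hv1 2
  have hsq2 : v.2 ^ 2 ≤ ‖v‖ ^ 2 := by
    rw [← sq_abs]; exact pow_le_pow_left₀ (abs_nonneg _) hv2 2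
  have hpr : |v.1 * v.2| ≤ ‖v‖ ^ 2 := by
    rw [abs_mul, sq]; exact mul_le_mul hv1 hv2 (abs_nonneg _) hn
  have e1 : g.E p * v.1 ^ 2 ≤ |B1| * ‖v‖ ^ 2 := by
    calc g.E p * v.1 ^ 2 ≤ |g.E p| * v.1 ^ 2 :=
          mul_le_mul_of_nonneg_right (le_abs_self _) (sq_nonneg _)
      _ ≤ |B1| * ‖v‖ ^ 2 := mul_le_mul hE hsq1 (sq_nonneg _) (abs_nonneg _)
  have e3 : g.G p * v.2 ^ 2 ≤ |B3| * ‖v‖ ^ 2 := by
    calc g.G p * v.2 ^ 2 ≤ |g.G p| * v.2 ^ 2 :=
          mul_le_mul_of_nonneg_right (le_abs_self _) (sq_nonneg _)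
      _ ≤ |B3| * ‖v‖ ^ 2 := mul_le_mul hG hsq2 (sq_nonneg _) (abs_nonneg _)
  have e2 : g.F p * (v.1 * v.2) ≤ |B2| * ‖v‖ ^ 2 := by
    calc g.F p * (v.1 * v.2) ≤ |g.F p * (v.1 * v.2)| := le_abs_self _
      _ = |g.F p| * |v.1 * v.2| := abs_mul _ _
      _ ≤ |B2| * ‖v‖ ^ 2 := mul_le_mul hF hpr (abs_nonneg _) (abs_nonneg _)
  unfold RiemMetric.norm
  have e4 : g.E p * v.1 ^ 2 + 2 * g.F p * v.1 * v.2 + g.G p * v.2 ^ 2
      ≤ (|B1| + 2 * |B2| + |B3|) * ‖v‖ ^ 2 := by nlinarith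
  calc √(g.E p * v.1 ^ 2 + 2 * g.F p * v.1 * v.2 + g.G p * v.2 ^ 2)
      ≤ √((|B1| + 2 * |B2| + |B3|) * ‖v‖ ^ 2) := Real.sqrt_le_sqrt e4
    _ = √(|B1| + 2 * |B2| + |B3|) * ‖v‖ := by
      rw [Real.sqrt_mul (by positivity), Real.sqrt_sq hn]

lemma RiemMetric.norm_nonneg' (g : RiemMetric) (p v : ℝ × ℝ) : 0 ≤ g.norm p v :=
  Real.sqrt_nonneg _

lemma seg_mem {p q : ℝ × ℝ} (hp : p ∈ Sq) (hq : q ∈ Sq) {t : ℝ} (ht0 : 0 ≤ t) (ht1 : t ≤ 1) :
    p + t • (q - p) ∈ Sq :=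
  convex_Sq.add_smul_sub_mem hp hq ⟨ht0, ht1⟩

lemma RiemMetric.segLength_le (g : RiemMetric) {p q : ℝ × ℝ}
    (B : ℝ) (hB : ∀ t : ℝ, 0 ≤ t → t ≤ 1 → g.norm (p + t • (q - p)) (q - p) ≤ B) :
    g.segLength p q ≤ B := by
  unfold RiemMetric.segLength
  have h1 := intervalIntegral.norm_integral_le_of_norm_le_const (a := 0) (b := 1) (C := B)
    (f := fun t => g.norm (p + t • (q - p)) (q - p)) (fun t ht => by
      rw [Set.uIoc_of_le zero_le_one] at ht
      rw [Real.norm_of_nonneg (g.norm_nonneg' _ _)]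
      exact hB t ht.1.le ht.2)
  simp only [sub_zero, abs_one, mul_one] at h1
  exact (le_abs_self _).trans h1

/-- The open unit square. -/
def Sqo : Set (ℝ × ℝ) := Set.Ioo (0 : ℝ) 1 ×ˢ Set.Ioo (0 : ℝ) 1

lemma Sqo_sub : Sqo ⊆ Sq := Set.prod_mono Ioo_subset_Icc_self Ioo_subset_Icc_self

lemma isOpen_Sqo : IsOpen Sqo := isOpen_Ioo.prod isOpen_Ioo

/-- A function on the square that is `1`-Lipschitz for the Riemannian metric along segments. -/
def SegLip (g : RiemMetric) (f : ℝ × ℝ → ℝ) : Prop :=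
  ∀ p ∈ Sq, ∀ q ∈ Sq, |f q - f p| ≤ g.segLength p q

lemma SegLip.deriv_le {g : RiemMetric} {f : ℝ × ℝ → ℝ} (hf : SegLip g f) {x : ℝ × ℝ}
    (hx : x ∈ Sqo) (hd : DifferentiableAt ℝ f x) (v : ℝ × ℝ) :
    (fderiv ℝ f x v) ^ 2 ≤ g.E x * v.1 ^ 2 + 2 * g.F x * v.1 * v.2 + g.G x * v.2 ^ 2 := by
  have hxS : x ∈ Sq := Sqo_sub hx
  have hnhds : Sq ∈ 𝓝 x := mem_of_superset (isOpen_Sqo.mem_nhds hx) Sqo_sub
  set L := fderiv ℝ f x with hL
  -- continuity of the norm along the segment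
  have hcont : ContinuousAt (fun t : ℝ => g.norm (x + t • v) v) 0 := by
    have hlin : ContinuousAt (fun t : ℝ => x + t • v) 0 := by fun_prop
    have hE : ContinuousAt (fun t : ℝ => g.E (x + t • v)) 0 := by
      have := (g.continuousOn_E.continuousAt hnhds)
      exact ContinuousAt.comp (f := fun t : ℝ => x + t • v) (by simpa using this) hlin
    have hF : ContinuousAt (fun t : ℝ => g.F (x + t • v)) 0 := by
      have := (g.continuousOn_F.continuousAt hnhds)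
      exact ContinuousAt.comp (f := fun t : ℝ => x + t • v) (by simpa using this) hlin
    have hG : ContinuousAt (fun t : ℝ => g.G (x + t • v)) 0 := by
      have := (g.continuousOn_G.continuousAt hnhds)
      exact ContinuousAt.comp (f := fun t : ℝ => x + t • v) (by simpa using this) hlin
    unfold RiemMetric.norm
    fun_prop
  have key : ∀ ε > 0, |L v| ≤ g.norm x v + ε := by
    intro ε hε
    have h1 : ∀ᶠ t in 𝓝 (0 : ℝ), g.norm (x + t • v) v < g.norm x v + ε := by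
      have h2 : Tendsto (fun t : ℝ => g.norm (x + t • v) v) (𝓝 0) (𝓝 (g.norm x v)) := by
        have := hcont.tendsto
        simpa using this
      exact h2.eventually (gt_mem_nhds (by linarith))
    have h3 : ∀ᶠ t in 𝓝 (0 : ℝ), x + t • v ∈ Sq := by
      have h4 : Tendsto (fun t : ℝ => x + t • v) (𝓝 0) (𝓝 x) := by
        have : Continuous (fun t : ℝ => x + t • v) := by fun_prop
        simpa using this.tendsto 0
      exact h4.eventually hnhds
    obtain ⟨δ, hδ, hball⟩ := Metric.eventually_nhds_iff.mp (h1.and h3)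
    have h5 : ∀ t, 0 < t → t < δ → |f (x + t • v) - f x| ≤ t * (g.norm x v + ε) := by
      intro t ht0 htδ
      have hmem : x + t • v ∈ Sq := (hball (y := t) (by
        rw [Real.dist_eq, sub_zero, abs_of_pos ht0]; exact htδ)).2
      refine (hf x hxS _ hmem).trans ?_
      apply g.segLength_le
      intro s hs0 hs1
      have e1 : x + t • v - x = t • v := by simp
      rw [e1, smul_smul]
      have e2 : g.norm (x + (s * t) • v) (t • v) = t * g.norm (x + (s * t) • v) v := by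
        unfold RiemMetric.norm
        simp only [Prod.smul_fst, Prod.smul_snd, smul_eq_mul]
        have : ∀ a b c : ℝ, a * (t * v.1) ^ 2 + 2 * b * (t * v.1) * (t * v.2)
            + c * (t * v.2) ^ 2 = t ^ 2 * (a * v.1 ^ 2 + 2 * b * v.1 * v.2 + c * v.2 ^ 2) := by
          intro a b c; ring
        rw [this, Real.sqrt_mul (sq_nonneg t), Real.sqrt_sq ht0.le]
      rw [e2]
      apply mul_le_mul_of_nonneg_left _ ht0.le
      have h6 : s * t < δ := by nlinarith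
      have h7 := (hball (y := s * t) (by
        rw [Real.dist_eq, sub_zero, abs_of_nonneg (by positivity)]; exact h6)).1
      exact h7.le
    have h8 := hd.hasFDerivAt.hasLineDerivAt v
    have h9 := h8.tendsto_slope_zero_right
    have h10 := h9.norm
    refine le_of_tendsto h10 ?_
    have h11 : Set.Ioo (0 : ℝ) δ ∈ 𝓝[>] (0 : ℝ) := Ioo_mem_nhdsGT hδ
    filter_upwards [h11] with t ht
    have h12 := h5 t ht.1 ht.2
    rw [norm_smul, norm_inv, Real.norm_of_nonneg ht.1.le, Real.norm_eq_abs]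
    rw [inv_mul_le_iff₀ ht.1]
    exact h12
  have h13 : |L v| ≤ g.norm x v := le_of_forall_pos_le_add key
  have h14 : (L v) ^ 2 ≤ (g.norm x v) ^ 2 := by
    rw [← sq_abs]
    exact pow_le_pow_left₀ (abs_nonneg _) h13 2
  refine h14.trans (le_of_eq ?_)
  unfold RiemMetric.norm
  exact Real.sq_sqrt (g.quad_nonneg hxS _ _)

lemma SegLip.lipschitz {g : RiemMetric} {C : ℝ} (hC : ∀ p ∈ Sq, ∀ v, g.norm p v ≤ C * ‖v‖)
    {f : ℝ × ℝ → ℝ} (hf : SegLip g f) {p q : ℝ × ℝ} (hp : p ∈ Sq) (hq : q ∈ Sq) :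
    |f q - f p| ≤ C * ‖q - p‖ := by
  refine (hf p hp q hq).trans ?_
  apply g.segLength_le
  intro t h0 h1
  exact hC _ (seg_mem hp hq h0 h1) _

lemma SegLip.ae_diff {g : RiemMetric} {f : ℝ × ℝ → ℝ} (hf : SegLip g f) :
    ∀ᵐ x ∂(volume.restrict Sqo), DifferentiableAt ℝ f x := by
  obtain ⟨C, hC0, hC⟩ := g.exists_bound
  have hlip : LipschitzOnWith (Real.toNNReal C) f Sqo := by
    apply LipschitzOnWith.of_dist_le_mul
    intro x hx y hy
    rw [Real.dist_eq, dist_eq_norm, Real.coe_toNNReal _ hC0]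
    exact hf.lipschitz hC (Sqo_sub hy) (Sqo_sub hx)
  have h1 := hlip.ae_differentiableWithinAt (μ := volume) isOpen_Sqo.measurableSet
  filter_upwards [h1, self_mem_ae_restrict isOpen_Sqo.measurableSet] with x hx hxS
  exact hx.differentiableAt (isOpen_Sqo.mem_nhds hxS)

end Pool.Agent.H115R3.Filling
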