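import Mathlib
import Pool.Agent.H115R3.Filling.Square

/-! # Discretisation of the area integral on one square -/

open Finset Real MeasureTheory Filter Topology Set Asymptotics

namespace Pool.Agent.H115R3.Filling

/-- The grid point `(a / n, b / n)`. -/
noncomputable def gp (n a b : ℕ) : ℝ × ℝ := ((a : ℝ) / n, (b : ℝ) / n)

/-- The cross product of the values of `(u, w)` at `p` and `q`. -/
def cr (u w : ℝ × ℝ → ℝ) (p q : ℝ × ℝ) : ℝ := u p * w q - u q * w p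

/-- Signed area of the quadrilateral that is the image of a grid cell under `(u, w)`. -/
noncomputable def cellSum (u w : ℝ × ℝ → ℝ) (n a b : ℕ) : ℝ :=
  (cr u w (gp n a b) (gp n (a + 1) b) + cr u w (gp n (a + 1) b) (gp n (a + 1) (b + 1))
    + cr u w (gp n (a + 1) (b + 1)) (gp n a (b + 1)) + cr u w (gp n a (b + 1)) (gp n a b)) / 2

lemma cellSum_eq (u w : ℝ × ℝ → ℝ) (n a b : ℕ) :
    cellSum u w n a b =
      ((u (gp n (a + 1) (b + 1)) - u (gp n a b)) * (w (gp n a (b + 1)) - w (gp n (a + 1) b))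
      - (u (gp n a (b + 1)) - u (gp n (a + 1) b)) * (w (gp n (a + 1) (b + 1)) - w (gp n a b)))
        / 2 := by
  unfold cellSum cr
  ring

/-- Difference quotients along sequences of pairs of points at distance `O(1/n)` from `x`. -/
lemma tendsto_diff_quot {u : ℝ × ℝ → ℝ} {x : ℝ × ℝ} (hu : DifferentiableAt ℝ u x)
    (p q : ℕ → ℝ × ℝ) (v : ℝ × ℝ) (C : ℝ) (hp : ∀ n : ℕ, 0 < n → ‖p n - x‖ ≤ C / n)
    (hq : ∀ n : ℕ, 0 < n → ‖q n - x‖ ≤ C / n)
    (hpq : ∀ n : ℕ, 0 < n → (n : ℝ) • (p n - q n) = v) :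
    Tendsto (fun n : ℕ => (n : ℝ) * (u (p n) - u (q n))) atTop (𝓝 (fderiv ℝ u x v)) := by
  set L := fderiv ℝ u x with hL
  have hfd : HasFDerivAt u L x := hu.hasFDerivAt
  have hC : Tendsto (fun n : ℕ => C / (n : ℝ)) atTop (𝓝 0) :=
    tendsto_const_div_atTop_nhds_zero_nat C
  have hlim : ∀ r : ℕ → ℝ × ℝ, (∀ n : ℕ, 0 < n → ‖r n - x‖ ≤ C / n) →
      Tendsto (fun n : ℕ => (n : ℝ) * (u (r n) - u x - L (r n - x))) atTop (𝓝 0) := by
    intro r hr
    have h1 : Tendsto r atTop (𝓝 x) := by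
      rw [tendsto_iff_norm_sub_tendsto_zero]
      refine squeeze_zero' (Eventually.of_forall fun n => norm_nonneg _) ?_ hC
      filter_upwards [eventually_gt_atTop 0] with n hn using hr n hn
    have h2 : (fun n => u (r n) - u x - L (r n - x)) =o[atTop] fun n => r n - x :=
      hfd.isLittleO.comp_tendsto h1
    have h3 : (fun n => r n - x) =O[atTop] fun n : ℕ => (1 / (n : ℝ)) := by
      refine IsBigO.of_bound C ?_
      filter_upwards [eventually_gt_atTop 0] with n hn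
      have := hr n hn
      rw [Real.norm_of_nonneg (by positivity)]
      calc ‖r n - x‖ ≤ C / n := this
        _ = C * (1 / n) := by ring
    have h4 := (h2.trans_isBigO h3).tendsto_div_nhds_zero
    refine h4.congr ?_
    intro n
    rw [div_div_eq_mul_div, div_one, mul_comm]
  have h5 := (hlim p hp).sub (hlim q hq)
  rw [sub_zero] at h5
  have h6 : Tendsto (fun n : ℕ => (n : ℝ) * (u (p n) - u x - L (p n - x))
      - (n : ℝ) * (u (q n) - u x - L (q n - x)) + L v) atTop (𝓝 (0 + L v)) :=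
    h5.add_const _
  rw [zero_add] at h6
  refine h6.congr' ?_
  filter_upwards [eventually_gt_atTop 0] with n hn
  have h7 : L v = (n : ℝ) * L (p n - x) - (n : ℝ) * L (q n - x) := by
    rw [← hpq n hn, map_smul, smul_eq_mul, map_sub, map_sub, map_sub]
    ring
  rw [h7]
  ring

lemma floor_close {x : ℝ} (hx : 0 ≤ x) (n : ℕ) (hn : 0 < n) :
    |(⌊(n : ℝ) * x⌋₊ : ℝ) / n - x| ≤ 1 / n ∧ |((⌊(n : ℝ) * x⌋₊ + 1 : ℕ) : ℝ) / n - x| ≤ 1 / n := by
  have hnr : (0 : ℝ) < n := by exact_mod_cast hn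
  have h1 : (⌊(n : ℝ) * x⌋₊ : ℝ) ≤ n * x := Nat.floor_le (by positivity)
  have h2 : (n : ℝ) * x < ⌊(n : ℝ) * x⌋₊ + 1 := Nat.lt_floor_add_one _
  constructor
  · have : (⌊(n : ℝ) * x⌋₊ : ℝ) / n - x = ((⌊(n : ℝ) * x⌋₊ : ℝ) - n * x) / n := by
      field_simp
    rw [this, abs_div, abs_of_pos hnr]
    apply div_le_div_of_nonneg_right _ hnr.le
    rw [abs_le]
    constructor <;> linarith
  · push_cast
    have : ((⌊(n : ℝ) * x⌋₊ : ℝ) + 1) / n - x = ((⌊(n : ℝ) * x⌋₊ : ℝ) + 1 - n * x) / n := by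
      field_simp
    rw [this, abs_div, abs_of_pos hnr]
    apply div_le_div_of_nonneg_right _ hnr.le
    rw [abs_le]
    constructor <;> linarith

/-- The rescaled cell sum at the cell containing `x`. -/
noncomputable def Qf (u w : ℝ × ℝ → ℝ) (n : ℕ) (x : ℝ × ℝ) : ℝ :=
  (n : ℝ) ^ 2 * cellSum u w n ⌊(n : ℝ) * x.1⌋₊ ⌊(n : ℝ) * x.2⌋₊

lemma tendsto_Qf {u w : ℝ × ℝ → ℝ} {x : ℝ × ℝ} (hx : x ∈ Sqo) (hu : DifferentiableAt ℝ u x)
    (hw : DifferentiableAt ℝ w x) :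
    Tendsto (fun n => Qf u w n x) atTop
      (𝓝 (fderiv ℝ u x (1, 0) * fderiv ℝ w x (0, 1)
        - fderiv ℝ u x (0, 1) * fderiv ℝ w x (1, 0))) := by
  have hx1 : 0 ≤ x.1 := hx.1.1.le
  have hx2 : 0 ≤ x.2 := hx.2.1.le
  have hnorm : ∀ (n a b : ℕ), |(a : ℝ) / n - x.1| ≤ 1 / n → |(b : ℝ) / n - x.2| ≤ 1 / n →
      ‖gp n a b - x‖ ≤ 1 / n := by
    intro n a b h1 h2
    rw [Prod.norm_def]
    exact max_le h1 h2
  have hdiag : ∀ (y : ℝ × ℝ → ℝ), DifferentiableAt ℝ y x →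
      Tendsto (fun n : ℕ => (n : ℝ) *
        (y (gp n (⌊(n : ℝ) * x.1⌋₊ + 1) (⌊(n : ℝ) * x.2⌋₊ + 1))
          - y (gp n ⌊(n : ℝ) * x.1⌋₊ ⌊(n : ℝ) * x.2⌋₊))) atTop (𝓝 (fderiv ℝ y x (1, 1))) := by
    intro y hy
    apply tendsto_diff_quot hy _ _ (1, 1) 1
    · intro n hn
      exact hnorm n _ _ (floor_close hx1 n hn).2 (floor_close hx2 n hn).2
    · intro n hn
      exact hnorm n _ _ (floor_close hx1 n hn).1 (floor_close hx2 n hn).1
    · intro n hn
      have hnr : (n : ℝ) ≠ 0 := by exact_mod_cast hn.ne'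
      unfold gp
      ext
      · simp only [Prod.smul_fst, Prod.fst_sub, smul_eq_mul]
        push_cast
        field_simp
        ring
      · simp only [Prod.smul_snd, Prod.snd_sub, smul_eq_mul]
        push_cast
        field_simp
        ring
  have hanti : ∀ (y : ℝ × ℝ → ℝ), DifferentiableAt ℝ y x →
      Tendsto (fun n : ℕ => (n : ℝ) *
        (y (gp n ⌊(n : ℝ) * x.1⌋₊ (⌊(n : ℝ) * x.2⌋₊ + 1))
          - y (gp n (⌊(n : ℝ) * x.1⌋₊ + 1) ⌊(n : ℝ) * x.2⌋₊))) atTop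
          (𝓝 (fderiv ℝ y x (-1, 1))) := by
    intro y hy
    apply tendsto_diff_quot hy _ _ (-1, 1) 1
    · intro n hn
      exact hnorm n _ _ (floor_close hx1 n hn).1 (floor_close hx2 n hn).2
    · intro n hn
      exact hnorm n _ _ (floor_close hx1 n hn).2 (floor_close hx2 n hn).1
    · intro n hn
      have hnr : (n : ℝ) ≠ 0 := by exact_mod_cast hn.ne'
      unfold gp
      ext
      · simp only [Prod.smul_fst, Prod.fst_sub, smul_eq_mul]
        push_cast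
        field_simp
        ring
      · simp only [Prod.smul_snd, Prod.snd_sub, smul_eq_mul]
        push_cast
        field_simp
        ring
  have h1 := ((hdiag u hu).mul (hanti w hw)).sub ((hanti u hu).mul (hdiag w hw))
  have h2 := h1.div_const 2
  have e1 : ∀ L : ℝ × ℝ →L[ℝ] ℝ, L (1, 1) = L (1, 0) + L (0, 1) := by
    intro L; rw [← map_add]; simp
  have e2 : ∀ L : ℝ × ℝ →L[ℝ] ℝ, L (-1, 1) = -L (1, 0) + L (0, 1) := by
    intro L; rw [← map_neg, ← map_add]; simp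
  rw [e1, e1, e2, e2] at h2
  have h3 : ((fderiv ℝ u x (1, 0) + fderiv ℝ u x (0, 1)) *
      (-fderiv ℝ w x (1, 0) + fderiv ℝ w x (0, 1))
      - (-fderiv ℝ u x (1, 0) + fderiv ℝ u x (0, 1)) *
        (fderiv ℝ w x (1, 0) + fderiv ℝ w x (0, 1))) / 2
      = fderiv ℝ u x (1, 0) * fderiv ℝ w x (0, 1)
        - fderiv ℝ u x (0, 1) * fderiv ℝ w x (1, 0) := by ring
  rw [h3] at h2
  refine h2.congr ?_
  intro n
  unfold Qf
  rw [cellSum_eq]
  ring

/-- The half-open cell. -/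
def cell (n a b : ℕ) : Set (ℝ × ℝ) :=
  Set.Ico ((a : ℝ) / n) (((a + 1 : ℕ) : ℝ) / n) ×ˢ Set.Ico ((b : ℝ) / n) (((b + 1 : ℕ) : ℝ) / n)

/-- The half-open unit square. -/
def Sqh : Set (ℝ × ℝ) := Set.Ico (0 : ℝ) 1 ×ˢ Set.Ico (0 : ℝ) 1

lemma mem_cell_iff {n a b : ℕ} (hn : 0 < n) {x : ℝ × ℝ} (hx1 : 0 ≤ x.1) (hx2 : 0 ≤ x.2) :
    x ∈ cell n a b ↔ ⌊(n : ℝ) * x.1⌋₊ = a ∧ ⌊(n : ℝ) * x.2⌋₊ = b := by
  have hnr : (0 : ℝ) < n := by exact_mod_cast hn
  unfold cell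
  rw [Set.mem_prod, Set.mem_Ico, Set.mem_Ico, Nat.floor_eq_iff (by positivity),
    Nat.floor_eq_iff (by positivity), div_le_iff₀ hnr, lt_div_iff₀ hnr, div_le_iff₀ hnr,
    lt_div_iff₀ hnr]
  push_cast
  rw [mul_comm x.1, mul_comm x.2]

lemma iUnion_cell {n : ℕ} (hn : 0 < n) :
    (⋃ c ∈ (range n ×ˢ range n : Finset (ℕ × ℕ)), cell n c.1 c.2) = Sqh := by
  have hnr : (0 : ℝ) < n := by exact_mod_cast hn
  ext x
  simp only [Set.mem_iUnion, Finset.mem_product, Finset.mem_range, exists_prop, Prod.exists]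
  constructor
  · rintro ⟨a, b, ⟨ha, hb⟩, hx⟩
    obtain ⟨⟨h1, h2⟩, h3, h4⟩ := hx
    have ha' : ((a + 1 : ℕ) : ℝ) / n ≤ 1 := by
      rw [div_le_one hnr]; exact_mod_cast ha
    have hb' : ((b + 1 : ℕ) : ℝ) / n ≤ 1 := by
      rw [div_le_one hnr]; exact_mod_cast hb
    have ha0 : (0 : ℝ) ≤ (a : ℝ) / n := by positivity
    have hb0 : (0 : ℝ) ≤ (b : ℝ) / n := by positivity
    exact ⟨⟨ha0.trans h1, h2.trans_le ha'⟩, ⟨hb0.trans h3, h4.trans_le hb'⟩⟩
  · rintro ⟨⟨h1, h2⟩, h3, h4⟩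
    refine ⟨⌊(n : ℝ) * x.1⌋₊, ⌊(n : ℝ) * x.2⌋₊, ⟨?_, ?_⟩, ?_⟩
    · rw [Nat.floor_lt (by positivity)]
      nlinarith
    · rw [Nat.floor_lt (by positivity)]
      nlinarith
    · exact (mem_cell_iff hn h1 h3).mpr ⟨rfl, rfl⟩

lemma volume_cell {n a b : ℕ} (hn : 0 < n) : (volume (cell n a b)).toReal = 1 / (n : ℝ) ^ 2 := by
  have hnr : (0 : ℝ) < n := by exact_mod_cast hn
  unfold cell
  rw [Measure.volume_eq_prod, Measure.prod_prod, Real.volume_Ico, Real.volume_Ico,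
    ENNReal.toReal_mul, ENNReal.toReal_ofReal, ENNReal.toReal_ofReal]
  · push_cast
    field_simp
    ring
  · rw [sub_nonneg]
    apply div_le_div_of_nonneg_right _ hnr.le
    push_cast
    linarith
  · rw [sub_nonneg]
    apply div_le_div_of_nonneg_right _ hnr.le
    push_cast
    linarith

lemma measurable_comp_pair (h : ℕ → ℕ → ℝ) (φ ψ : ℝ × ℝ → ℕ) (hφ : Measurable φ)
    (hψ : Measurable ψ) : Measurable (fun x => h (φ x) (ψ x)) :=
  (measurable_of_countable (fun c : ℕ × ℕ => h c.1 c.2)).comp (hφ.prodMk hψ)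

lemma measurable_Qf (u w : ℝ × ℝ → ℝ) (n : ℕ) : Measurable (Qf u w n) := by
  have h := measurable_comp_pair (fun a b => (n : ℝ) ^ 2 * cellSum u w n a b)
    (fun x : ℝ × ℝ => ⌊(n : ℝ) * x.1⌋₊) (fun x => ⌊(n : ℝ) * x.2⌋₊)
    (Nat.measurable_floor.comp (measurable_fst.const_mul _))
    (Nat.measurable_floor.comp (measurable_snd.const_mul _))
  exact h

lemma integral_Qf (u w : ℝ × ℝ → ℝ) {n : ℕ} (hn : 0 < n) :
    ∫ x in Sqh, Qf u w n x = ∑ c ∈ (range n ×ˢ range n : Finset (ℕ × ℕ)),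
      cellSum u w n c.1 c.2 := by
  have hnr : (0 : ℝ) < n := by exact_mod_cast hn
  have hmeas : ∀ a b : ℕ, MeasurableSet (cell n a b) := fun a b =>
    measurableSet_Ico.prod measurableSet_Ico
  have hcell : ∀ a b : ℕ, ∀ x ∈ cell n a b, Qf u w n x = (n : ℝ) ^ 2 * cellSum u w n a b := by
    intro a b x hx
    have hx1 : 0 ≤ x.1 := le_trans (by positivity) hx.1.1
    have hx2 : 0 ≤ x.2 := le_trans (by positivity) hx.2.1
    obtain ⟨h1, h2⟩ := (mem_cell_iff hn hx1 hx2).mp hx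
    unfold Qf
    rw [h1, h2]
  have hfin : ∀ a b : ℕ, volume (cell n a b) < ⊤ := by
    intro a b
    unfold cell
    rw [Measure.volume_eq_prod, Measure.prod_prod, Real.volume_Ico, Real.volume_Ico]
    exact ENNReal.mul_lt_top ENNReal.ofReal_lt_top ENNReal.ofReal_lt_top
  rw [← iUnion_cell hn, integral_biUnion_finset]
  · apply Finset.sum_congr rfl
    intro c _
    rw [setIntegral_congr_fun (hmeas c.1 c.2) (hcell c.1 c.2), setIntegral_const,
      Measure.real, volume_cell hn, smul_eq_mul]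
    field_simp
  · intro c _
    exact hmeas c.1 c.2
  · intro c _ c' _ hcc'
    rw [Function.onFun, Set.disjoint_left]
    intro x hx hx'
    have hx1 : 0 ≤ x.1 := le_trans (by positivity) hx.1.1
    have hx2 : 0 ≤ x.2 := le_trans (by positivity) hx.2.1
    obtain ⟨h1, h2⟩ := (mem_cell_iff hn hx1 hx2).mp hx
    obtain ⟨h3, h4⟩ := (mem_cell_iff hn hx1 hx2).mp hx'
    exact hcc' (Prod.ext (h1.symm.trans h3) (h2.symm.trans h4))
  · intro c _
    have : IntegrableOn (fun _ : ℝ × ℝ => (n : ℝ) ^ 2 * cellSum u w n c.1 c.2) (cell n c.1 c.2)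
        volume := integrableOn_const (hfin c.1 c.2).ne
    exact this.congr_fun (fun x hx => (hcell c.1 c.2 x hx).symm) (hmeas c.1 c.2)

end Pool.Agent.H115R3.Filling
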