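import Mathlib
import Pool.Agent.H115R3.Filling.Discrete

/-! # The limit of the discretised area on one square -/

open Finset Real MeasureTheory Filter Topology Set

namespace Pool.Agent.H115R3.Filling

lemma Sqh_ae_eq_Sq : (Sqh : Set (ℝ × ℝ)) =ᵐ[volume] Sq := by
  unfold Sqh Sq
  rw [Measure.volume_eq_prod]
  exact Measure.set_prod_ae_eq Ico_ae_eq_Icc Ico_ae_eq_Icc

lemma Sqh_ae_eq_Sqo : (Sqh : Set (ℝ × ℝ)) =ᵐ[volume] Sqo := by
  unfold Sqh Sqo
  rw [Measure.volume_eq_prod]
  exact Measure.set_prod_ae_eq Ioo_ae_eq_Ico.symm Ioo_ae_eq_Ico.symm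

lemma fderiv_fc {N : ℕ} {f : ℕ → ℝ × ℝ → ℝ} {x : ℝ × ℝ}
    (hd : ∀ j ∈ range (2 * N), DifferentiableAt ℝ (f j) x) (k : ℕ) :
    DifferentiableAt ℝ (fun p => fc N (fun j => f j p) k) x ∧
    ∀ v, fderiv ℝ (fun p => fc N (fun j => f j p) k) x v
      = fc N (fun j => fderiv ℝ (f j) x v) k := by
  have h1 : HasFDerivAt (fun p => fc N (fun j => f j p) k)
      ((N : ℝ)⁻¹ • ∑ j ∈ range (2 * N), (cos (k * (π * j / N))) • fderiv ℝ (f j) x) x := by
    unfold fc
    have h2 : HasFDerivAt (fun p => ∑ j ∈ range (2 * N), f j p * cos (k * (π * j / N)))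
        (∑ j ∈ range (2 * N), (cos (k * (π * j / N))) • fderiv ℝ (f j) x) x := by
      apply HasFDerivAt.fun_sum
      intro j hj
      exact (hd j hj).hasFDerivAt.mul_const _
    have h3 := h2.const_mul ((N : ℝ)⁻¹)
    refine h3.congr_of_eventuallyEq ?_
    apply Eventually.of_forall
    intro p
    simp only
    rw [div_eq_inv_mul]
  refine ⟨h1.differentiableAt, ?_⟩
  intro v
  rw [h1.fderiv]
  unfold fc
  rw [div_eq_inv_mul]
  simp only [smul_apply, _root_.sum_apply, smul_eq_mul]
  congr 1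
  apply Finset.sum_congr rfl
  intro j _
  ring

lemma fderiv_fs {N : ℕ} {f : ℕ → ℝ × ℝ → ℝ} {x : ℝ × ℝ}
    (hd : ∀ j ∈ range (2 * N), DifferentiableAt ℝ (f j) x) (k : ℕ) :
    DifferentiableAt ℝ (fun p => fs N (fun j => f j p) k) x ∧
    ∀ v, fderiv ℝ (fun p => fs N (fun j => f j p) k) x v
      = fs N (fun j => fderiv ℝ (f j) x v) k := by
  have h1 : HasFDerivAt (fun p => fs N (fun j => f j p) k)
      ((N : ℝ)⁻¹ • ∑ j ∈ range (2 * N), (sin (k * (π * j / N))) • fderiv ℝ (f j) x) x := by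
    unfold fs
    have h2 : HasFDerivAt (fun p => ∑ j ∈ range (2 * N), f j p * sin (k * (π * j / N)))
        (∑ j ∈ range (2 * N), (sin (k * (π * j / N))) • fderiv ℝ (f j) x) x := by
      apply HasFDerivAt.fun_sum
      intro j hj
      exact (hd j hj).hasFDerivAt.mul_const _
    have h3 := h2.const_mul ((N : ℝ)⁻¹)
    refine h3.congr_of_eventuallyEq ?_
    apply Eventually.of_forall
    intro p
    simp only
    rw [div_eq_inv_mul]
  refine ⟨h1.differentiableAt, ?_⟩
  intro v
  rw [h1.fderiv]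
  unfold fs
  rw [div_eq_inv_mul]
  simp only [smul_apply, _root_.sum_apply, smul_eq_mul]
  congr 1
  apply Finset.sum_congr rfl
  intro j _
  ring

lemma fc_diff_le {N : ℕ} (hN : 0 < N) {x y : ℕ → ℝ} {c : ℝ}
    (h : ∀ j ∈ range (2 * N), |x j - y j| ≤ c) (k : ℕ) : |fc N x k - fc N y k| ≤ 2 * c := by
  have hNr : (0 : ℝ) < N := by exact_mod_cast hN
  unfold fc
  rw [← sub_div, ← sum_sub_distrib, abs_div, abs_of_pos hNr, div_le_iff₀ hNr]
  refine (abs_sum_le_sum_abs _ _).trans ?_
  calc ∑ j ∈ range (2 * N), |x j * cos (k * (π * j / N)) - y j * cos (k * (π * j / N))|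
      ≤ ∑ _j ∈ range (2 * N), c := by
        apply sum_le_sum
        intro j hj
        rw [← sub_mul, abs_mul]
        calc |x j - y j| * |cos (k * (π * j / N))| ≤ |x j - y j| * 1 :=
              mul_le_mul_of_nonneg_left (abs_cos_le_one _) (abs_nonneg _)
          _ ≤ c := by rw [mul_one]; exact h j hj
    _ = 2 * c * N := by
        rw [sum_const, card_range, nsmul_eq_mul]; push_cast; ring

lemma fs_diff_le {N : ℕ} (hN : 0 < N) {x y : ℕ → ℝ} {c : ℝ}
    (h : ∀ j ∈ range (2 * N), |x j - y j| ≤ c) (k : ℕ) : |fs N x k - fs N y k| ≤ 2 * c := by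
  have hNr : (0 : ℝ) < N := by exact_mod_cast hN
  unfold fs
  rw [← sub_div, ← sum_sub_distrib, abs_div, abs_of_pos hNr, div_le_iff₀ hNr]
  refine (abs_sum_le_sum_abs _ _).trans ?_
  calc ∑ j ∈ range (2 * N), |x j * sin (k * (π * j / N)) - y j * sin (k * (π * j / N))|
      ≤ ∑ _j ∈ range (2 * N), c := by
        apply sum_le_sum
        intro j hj
        rw [← sub_mul, abs_mul]
        calc |x j - y j| * |sin (k * (π * j / N))| ≤ |x j - y j| * 1 :=
              mul_le_mul_of_nonneg_left (abs_sin_le_one _) (abs_nonneg _)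
          _ ≤ c := by rw [mul_one]; exact h j hj
    _ = 2 * c * N := by
        rw [sum_const, card_range, nsmul_eq_mul]; push_cast; ring

lemma Qf_bound {u w : ℝ × ℝ → ℝ} {c : ℝ} (hc : 0 ≤ c)
    (hu : ∀ p ∈ Sq, ∀ q ∈ Sq, |u q - u p| ≤ c * ‖q - p‖)
    (hw : ∀ p ∈ Sq, ∀ q ∈ Sq, |w q - w p| ≤ c * ‖q - p‖) {n : ℕ} (hn : 0 < n) {x : ℝ × ℝ}
    (hx : x ∈ Sqh) : |Qf u w n x| ≤ c ^ 2 := by
  have hnr : (0 : ℝ) < n := by exact_mod_cast hn
  obtain ⟨⟨h1, h2⟩, h3, h4⟩ := hx
  set a := ⌊(n : ℝ) * x.1⌋₊ with ha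
  set b := ⌊(n : ℝ) * x.2⌋₊ with hb
  have ha1 : a < n := by
    rw [ha, Nat.floor_lt (by positivity)]
    nlinarith
  have hb1 : b < n := by
    rw [hb, Nat.floor_lt (by positivity)]
    nlinarith
  have hmem : ∀ a' b' : ℕ, a' ≤ n → b' ≤ n → gp n a' b' ∈ Sq := by
    intro a' b' ha' hb'
    unfold gp Sq
    refine ⟨⟨by positivity, ?_⟩, ⟨by positivity, ?_⟩⟩
    · exact (div_le_one hnr).mpr (by exact_mod_cast ha')
    · exact (div_le_one hnr).mpr (by exact_mod_cast hb')
  have m1 := hmem a b ha1.le hb1.le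
  have m2 := hmem (a + 1) b ha1 hb1.le
  have m3 := hmem (a + 1) (b + 1) ha1 hb1
  have m4 := hmem a (b + 1) ha1.le hb1
  have n1 : ‖gp n (a + 1) (b + 1) - gp n a b‖ ≤ 1 / n := by
    unfold gp
    rw [Prod.norm_def]
    apply max_le
    · simp only [Prod.fst_sub]
      have : ((a + 1 : ℕ) : ℝ) / n - (a : ℝ) / n = 1 / n := by push_cast; ring
      rw [this, Real.norm_of_nonneg (by positivity)]
    · simp only [Prod.snd_sub]
      have : ((b + 1 : ℕ) : ℝ) / n - (b : ℝ) / n = 1 / n := by push_cast; ring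
      rw [this, Real.norm_of_nonneg (by positivity)]
  have n2 : ‖gp n a (b + 1) - gp n (a + 1) b‖ ≤ 1 / n := by
    unfold gp
    rw [Prod.norm_def]
    apply max_le
    · simp only [Prod.fst_sub]
      have : (a : ℝ) / n - ((a + 1 : ℕ) : ℝ) / n = -(1 / n) := by push_cast; ring
      rw [this, norm_neg, Real.norm_of_nonneg (by positivity)]
    · simp only [Prod.snd_sub]
      have : ((b + 1 : ℕ) : ℝ) / n - (b : ℝ) / n = 1 / n := by push_cast; ring
      rw [this, Real.norm_of_nonneg (by positivity)]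
  have e1 := (hu _ m1 _ m3).trans (mul_le_mul_of_nonneg_left n1 hc)
  have e2 := (hw _ m2 _ m4).trans (mul_le_mul_of_nonneg_left n2 hc)
  have e3 := (hu _ m2 _ m4).trans (mul_le_mul_of_nonneg_left n2 hc)
  have e4 := (hw _ m1 _ m3).trans (mul_le_mul_of_nonneg_left n1 hc)
  unfold Qf
  rw [← ha, ← hb, cellSum_eq, abs_mul, abs_of_nonneg (by positivity : (0 : ℝ) ≤ (n : ℝ) ^ 2),
    abs_div, abs_of_pos (by norm_num : (0 : ℝ) < 2)]
  have e5 : |(u (gp n (a + 1) (b + 1)) - u (gp n a b)) *
        (w (gp n a (b + 1)) - w (gp n (a + 1) b)) -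
      (u (gp n a (b + 1)) - u (gp n (a + 1) b)) *
        (w (gp n (a + 1) (b + 1)) - w (gp n a b))|
      ≤ 2 * (c * (1 / n)) ^ 2 := by
    refine (abs_sub _ _).trans ?_
    rw [abs_mul, abs_mul]
    have := mul_le_mul e1 e2 (abs_nonneg _) (by positivity)
    have := mul_le_mul e3 e4 (abs_nonneg _) (by positivity)
    nlinarith
  calc (n : ℝ) ^ 2 * (|(u (gp n (a + 1) (b + 1)) - u (gp n a b)) *
        (w (gp n a (b + 1)) - w (gp n (a + 1) b)) -
      (u (gp n a (b + 1)) - u (gp n (a + 1) b)) *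
        (w (gp n (a + 1) (b + 1)) - w (gp n a b))| / 2)
      ≤ (n : ℝ) ^ 2 * ((2 * (c * (1 / n)) ^ 2) / 2) := by
        apply mul_le_mul_of_nonneg_left _ (by positivity)
        exact div_le_div_of_nonneg_right e5 (by norm_num)
    _ = c ^ 2 := by field_simp

lemma RiemMetric.integrableOn_density (g : RiemMetric) :
    IntegrableOn (fun p => √(g.E p * g.G p - g.F p ^ 2)) Sq volume := by
  apply ContinuousOn.integrableOn_compact isCompact_Sq
  apply ContinuousOn.sqrt
  exact (g.continuousOn_E.mul g.continuousOn_G).sub (g.continuousOn_F.pow 2)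

/-- The discretised area converges to a number that is at most the Riemannian area. -/
theorem square_limit (g : RiemMetric) (N : ℕ) (hN : 0 < N) (K : Finset ℕ)
    (hK : ∀ k ∈ K, 0 < k ∧ k < N) (f : ℕ → ℝ × ℝ → ℝ) (hf : ∀ j, SegLip g (f j)) :
    ∃ L : ℝ, L ≤ g.area ∧ Tendsto (fun n : ℕ => ∑ k ∈ K,
      ∑ c ∈ (range n ×ˢ range n : Finset (ℕ × ℕ)),
        cellSum (fun p => fc N (fun j => f j p) k) (fun p => fs N (fun j => f j p) k) n c.1 c.2)
      atTop (𝓝 L) := by
  obtain ⟨C, hC0, hC⟩ := g.exists_bound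
  set A : ℕ → ℝ × ℝ → ℝ := fun k p => fc N (fun j => f j p) k with hA
  set B : ℕ → ℝ × ℝ → ℝ := fun k p => fs N (fun j => f j p) k with hB
  have hAl : ∀ k, ∀ p ∈ Sq, ∀ q ∈ Sq, |A k q - A k p| ≤ (2 * C) * ‖q - p‖ := by
    intro k p hp q hq
    have := fc_diff_le hN (x := fun j => f j q) (y := fun j => f j p) (c := C * ‖q - p‖)
      (fun j _ => (hf j).lipschitz hC hp hq) k
    calc |A k q - A k p| ≤ 2 * (C * ‖q - p‖) := this
      _ = (2 * C) * ‖q - p‖ := by ring
  have hBl : ∀ k, ∀ p ∈ Sq, ∀ q ∈ Sq, |B k q - B k p| ≤ (2 * C) * ‖q - p‖ := by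
    intro k p hp q hq
    have := fs_diff_le hN (x := fun j => f j q) (y := fun j => f j p) (c := C * ‖q - p‖)
      (fun j _ => (hf j).lipschitz hC hp hq) k
    calc |B k q - B k p| ≤ 2 * (C * ‖q - p‖) := this
      _ = (2 * C) * ‖q - p‖ := by ring
  set J : ℕ → ℝ × ℝ → ℝ := fun k x => fderiv ℝ (A k) x (1, 0) * fderiv ℝ (B k) x (0, 1)
        - fderiv ℝ (A k) x (0, 1) * fderiv ℝ (B k) x (1, 0) with hJ
  -- almost everywhere differentiability
  have hrestr : volume.restrict Sqh = volume.restrict Sqo :=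
    Measure.restrict_congr_set Sqh_ae_eq_Sqo
  have hae : ∀ᵐ x ∂(volume.restrict Sqh), x ∈ Sqo ∧
      ∀ j ∈ range (2 * N), DifferentiableAt ℝ (f j) x := by
    rw [hrestr]
    have h1 : ∀ᵐ x ∂(volume.restrict Sqo), ∀ j : ℕ, DifferentiableAt ℝ (f j) x := by
      rw [ae_all_iff]
      intro j
      exact (hf j).ae_diff
    filter_upwards [h1, self_mem_ae_restrict isOpen_Sqo.measurableSet] with x hx hxS
    exact ⟨hxS, fun j _ => hx j⟩
  have hSqhm : MeasurableSet Sqh := measurableSet_Ico.prod measurableSet_Ico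
  have hlim : ∀ k, ∀ᵐ x ∂(volume.restrict Sqh),
      Tendsto (fun n => Qf (A k) (B k) n x) atTop (𝓝 (J k x)) := by
    intro k
    filter_upwards [hae] with x hx
    exact tendsto_Qf hx.1 (fderiv_fc hx.2 k).1 (fderiv_fs hx.2 k).1
  have hbound : ∀ k, ∀ n : ℕ, 0 < n → ∀ᵐ x ∂(volume.restrict Sqh),
      ‖Qf (A k) (B k) n x‖ ≤ (2 * C) ^ 2 := by
    intro k n hn
    filter_upwards [self_mem_ae_restrict hSqhm] with x hx
    exact Qf_bound (by positivity) (hAl k) (hBl k) hn hx
  have hfin : IsFiniteMeasure (volume.restrict Sqh) := by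
    rw [Measure.restrict_congr_set Sqh_ae_eq_Sq]
    exact ⟨by rw [Measure.restrict_apply_univ]; exact isCompact_Sq.measure_lt_top⟩
  have hconst : Integrable (fun _ : ℝ × ℝ => (2 * C) ^ 2) (volume.restrict Sqh) :=
    integrable_const _
  have hint : ∀ k, Tendsto (fun n : ℕ => ∫ x in Sqh, Qf (A k) (B k) n x) atTop
      (𝓝 (∫ x in Sqh, J k x)) := by
    intro k
    refine tendsto_integral_filter_of_dominated_convergence (fun _ => (2 * C) ^ 2) ?_ ?_ hconst
      (hlim k)
    · exact Eventually.of_forall fun n => (measurable_Qf _ _ n).aestronglyMeasurable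
    · filter_upwards [eventually_gt_atTop 0] with n hn using hbound k n hn
  have hJmeas : ∀ k, AEStronglyMeasurable (J k) (volume.restrict Sqh) := fun k =>
    aestronglyMeasurable_of_tendsto_ae atTop
      (fun n => (measurable_Qf (A k) (B k) n).aestronglyMeasurable) (hlim k)
  have hJint : ∀ k, Integrable (J k) (volume.restrict Sqh) := by
    intro k
    refine hconst.mono' (hJmeas k) ?_
    have hall : ∀ᵐ x ∂(volume.restrict Sqh), ∀ n : ℕ, 0 < n →
        ‖Qf (A k) (B k) n x‖ ≤ (2 * C) ^ 2 := by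
      rw [ae_all_iff]
      intro n
      by_cases hn : 0 < n
      · filter_upwards [hbound k n hn] with x hx _ using hx
      · exact Eventually.of_forall fun x h => absurd h hn
    filter_upwards [hlim k, hall] with x hx hx2
    refine le_of_tendsto hx.norm ?_
    filter_upwards [eventually_gt_atTop 0] with n hn using hx2 n hn
  refine ⟨∑ k ∈ K, ∫ x in Sqh, J k x, ?_, ?_⟩
  · rw [← integral_finsetSum K (fun k _ => hJint k)]
    have harea : g.area = ∫ p in Sqh, √(g.E p * g.G p - g.F p ^ 2) := by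
      unfold RiemMetric.area
      rw [Measure.restrict_congr_set Sqh_ae_eq_Sq]
    rw [harea]
    apply integral_mono_ae
    · exact integrable_finsetSum K (fun k _ => hJint k)
    · have := g.integrableOn_density
      unfold IntegrableOn at this
      rwa [← Measure.restrict_congr_set Sqh_ae_eq_Sq] at this
    · filter_upwards [hae] with x hx
      have hxS : x ∈ Sq := Sqo_sub hx.1
      simp only [hJ]
      have h1 : ∀ k, fderiv ℝ (A k) x (1, 0) * fderiv ℝ (B k) x (0, 1)
          - fderiv ℝ (A k) x (0, 1) * fderiv ℝ (B k) x (1, 0)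
          = fc N (fun j => if j < 2 * N then fderiv ℝ (f j) x (1, 0) else 0) k
            * fs N (fun j => if j < 2 * N then fderiv ℝ (f j) x (0, 1) else 0) k
          - fc N (fun j => if j < 2 * N then fderiv ℝ (f j) x (0, 1) else 0) k
            * fs N (fun j => if j < 2 * N then fderiv ℝ (f j) x (1, 0) else 0) k := by
        intro k
        rw [hA, hB]
        simp only
        rw [(fderiv_fc hx.2 k).2, (fderiv_fc hx.2 k).2, (fderiv_fs hx.2 k).2,
          (fderiv_fs hx.2 k).2]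
        have e1 : ∀ v, fc N (fun j => fderiv ℝ (f j) x v) k
            = fc N (fun j => if j < 2 * N then fderiv ℝ (f j) x v else 0) k := by
          intro v
          unfold fc
          congr 1
          apply Finset.sum_congr rfl
          intro j hj
          simp only [if_pos (Finset.mem_range.mp hj)]
        have e2 : ∀ v, fs N (fun j => fderiv ℝ (f j) x v) k
            = fs N (fun j => if j < 2 * N then fderiv ℝ (f j) x v else 0) k := by
          intro v
          unfold fs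
          congr 1
          apply Finset.sum_congr rfl
          intro j hj
          simp only [if_pos (Finset.mem_range.mp hj)]
        rw [e1, e1, e2, e2]
      rw [Finset.sum_congr rfl (fun k _ => h1 k)]
      refine pointwise_le N hN K hK (g.E x) (g.F x) (g.G x) (g.pos_E x hxS) (g.pos_det x hxS)
        _ _ ?_
      intro j v w
      by_cases hj : j < 2 * N
      · rw [if_pos hj, if_pos hj]
        have h2 := (hf j).deriv_le hx.1 (hx.2 j (Finset.mem_range.mpr hj)) (v, w)
        have h3 : fderiv ℝ (f j) x (v, w)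
            = fderiv ℝ (f j) x (1, 0) * v + fderiv ℝ (f j) x (0, 1) * w := by
          have : ((v, w) : ℝ × ℝ) = v • (1, 0) + w • (0, 1) := by simp
          rw [this, map_add, map_smul, map_smul, smul_eq_mul, smul_eq_mul]
          ring
        rw [h3] at h2
        exact h2
      · rw [if_neg hj, if_neg hj]
        have := g.quad_nonneg hxS v w
        simpa using this
  · have h1 : Tendsto (fun n : ℕ => ∑ k ∈ K, ∫ x in Sqh, Qf (A k) (B k) n x) atTop
        (𝓝 (∑ k ∈ K, ∫ x in Sqh, J k x)) := tendsto_finsetSum K (fun k _ => hint k)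
    refine h1.congr' ?_
    filter_upwards [eventually_gt_atTop 0] with n hn
    apply Finset.sum_congr rfl
    intro k _
    exact integral_Qf _ _ hn

end Pool.Agent.H115R3.Filling
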