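import Mathlib
import Pool.Agent.H115R3.Filling.Circle

/-! # Discretised loop integrals along the boundary circle -/

open Finset Real MeasureTheory Filter Topology Set

namespace Pool.Agent.H115R3.Filling

/-- Discretised `∫ (α dβ - β dα)` along a curve parametrised by `[0,1]`. -/
noncomputable def edge (α β : ℝ → ℝ) (n : ℕ) : ℝ :=
  ∑ i ∈ range n, (α ((i : ℝ) / n) * β (((i + 1 : ℕ) : ℝ) / n)
    - α (((i + 1 : ℕ) : ℝ) / n) * β ((i : ℝ) / n))

lemma edge_congr {α β α' β' : ℝ → ℝ} {n : ℕ} (hα : ∀ t ∈ Set.Icc (0 : ℝ) 1, α t = α' t)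
    (hβ : ∀ t ∈ Set.Icc (0 : ℝ) 1, β t = β' t) : edge α β n = edge α' β' n := by
  unfold edge
  apply Finset.sum_congr rfl
  intro i hi
  have hi' := Finset.mem_range.mp hi
  have hn : (0 : ℝ) < n := by
    have : 0 < n := by omega
    exact_mod_cast this
  have h1 : (i : ℝ) / n ∈ Set.Icc (0 : ℝ) 1 :=
    ⟨by positivity, (div_le_one hn).mpr (by exact_mod_cast hi'.le)⟩
  have h2 : ((i + 1 : ℕ) : ℝ) / n ∈ Set.Icc (0 : ℝ) 1 :=
    ⟨by positivity, (div_le_one hn).mpr (by exact_mod_cast hi')⟩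
  rw [hα _ h1, hα _ h2, hβ _ h1, hβ _ h2]

lemma edge_reverse (α β : ℝ → ℝ) (n : ℕ) :
    edge (fun t => α (1 - t)) (fun t => β (1 - t)) n = -edge α β n := by
  unfold edge
  rw [← Finset.sum_range_reflect, ← Finset.sum_neg_distrib]
  apply Finset.sum_congr rfl
  intro i hi
  have hi' := Finset.mem_range.mp hi
  have hn : (n : ℝ) ≠ 0 := by
    have : n ≠ 0 := by omega
    exact_mod_cast this
  have h1 : ((n - 1 - i : ℕ) : ℝ) = n - 1 - i := by
    rw [Nat.cast_sub (by omega), Nat.cast_sub (by omega)]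
    simp
  have h2 : 1 - ((n - 1 - i : ℕ) : ℝ) / n = ((i + 1 : ℕ) : ℝ) / n := by
    rw [h1]; push_cast; field_simp; ring
  have h3 : 1 - ((n - 1 - i + 1 : ℕ) : ℝ) / n = (i : ℝ) / n := by
    push_cast
    rw [h1]; field_simp; ring
  simp only
  rw [h2, h3]
  ring

lemma fin_telescope {m : ℕ} (g : Fin (m + 1) → ℝ) :
    ∑ k : Fin m, (g k.succ - g k.castSucc) = g (Fin.last m) - g 0 := by
  induction m with
  | zero => simp
  | succ m ih =>
    rw [Fin.sum_univ_castSucc]
    have := ih (fun i => g i.castSucc)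
    simp only [Fin.succ_castSucc] at *
    rw [this]
    simp

section

variable {m : ℕ} (brk : Fin (m + 1) → ℝ)

/-- The linear parametrisation of the `k`-th arc. -/
noncomputable def arc (k : Fin m) (u : ℝ) : ℝ :=
  brk k.castSucc + u * (brk k.succ - brk k.castSucc)

/-- Discretised loop integral of `α dβ - β dα`. -/
noncomputable def loopSum (α β : ℝ → ℝ) (n : ℕ) : ℝ :=
  ∑ k : Fin m, edge (fun u => α (arc brk k u)) (fun u => β (arc brk k u)) n

lemma arc_zero (k : Fin m) : arc brk k 0 = brk k.castSucc := by simp [arc]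

lemma arc_one (k : Fin m) : arc brk k 1 = brk k.succ := by simp [arc]

lemma loop_closed (γ : ℝ → ℝ) (h : γ (brk (Fin.last m)) = γ (brk 0)) {n : ℕ} (hn : 0 < n) :
    ∑ k : Fin m, ∑ i ∈ range n, (γ (arc brk k (((i + 1 : ℕ) : ℝ) / n))
      - γ (arc brk k ((i : ℝ) / n))) = 0 := by
  have hnr : (n : ℝ) ≠ 0 := by exact_mod_cast hn.ne'
  have h1 : ∀ k : Fin m, ∑ i ∈ range n, (γ (arc brk k (((i + 1 : ℕ) : ℝ) / n))
      - γ (arc brk k ((i : ℝ) / n))) = γ (brk k.succ) - γ (brk k.castSucc) := by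
    intro k
    rw [Finset.sum_range_sub (fun i : ℕ => γ (arc brk k ((i : ℝ) / n)))]
    rw [div_self hnr, arc_one]
    simp [arc_zero]
  rw [Finset.sum_congr rfl (fun k _ => h1 k), fin_telescope (fun k => γ (brk k)), h, sub_self]

lemma loopSum_eq (α β : ℝ → ℝ) (hα : α (brk (Fin.last m)) = α (brk 0))
    (hβ : β (brk (Fin.last m)) = β (brk 0)) {n : ℕ} (hn : 0 < n) :
    loopSum brk α β n = ∑ k : Fin m, ∑ i ∈ range n,
      (α (arc brk k ((i : ℝ) / n)) + α (arc brk k (((i + 1 : ℕ) : ℝ) / n)))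
        * (β (arc brk k (((i + 1 : ℕ) : ℝ) / n)) - β (arc brk k ((i : ℝ) / n))) := by
  have h1 := loop_closed brk (fun t => α t * β t) (by simp only [hα, hβ]) hn
  have h2 : loopSum brk α β n = loopSum brk α β n + ∑ k : Fin m, ∑ i ∈ range n,
      ((fun t => α t * β t) (arc brk k (((i + 1 : ℕ) : ℝ) / n))
      - (fun t => α t * β t) (arc brk k ((i : ℝ) / n))) := by rw [h1, add_zero]
  rw [h2]
  unfold loopSum edge
  rw [← Finset.sum_add_distrib]
  apply Finset.sum_congr rfl
  intro k _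
  rw [← Finset.sum_add_distrib]
  apply Finset.sum_congr rfl
  intro i _
  ring

lemma loopSum_antisymm (α β : ℝ → ℝ) (n : ℕ) : loopSum brk α β n = -loopSum brk β α n := by
  unfold loopSum edge
  rw [← Finset.sum_neg_distrib]
  apply Finset.sum_congr rfl
  intro k _
  rw [← Finset.sum_neg_distrib]
  apply Finset.sum_congr rfl
  intro i _
  ring

lemma loopSum_small (hmono : StrictMono brk) (α β : ℝ → ℝ)
    (hα : α (brk (Fin.last m)) = α (brk 0))
    (hβ : β (brk (Fin.last m)) = β (brk 0)) (η Λ : ℝ) (hη : ∀ t, |α t| ≤ η)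
    (hη0 : 0 ≤ η) (hΛ : ∀ s t, |β s - β t| ≤ Λ * |s - t|) {n : ℕ} (hn : 0 < n) :
    |loopSum brk α β n| ≤ 2 * η * Λ * (brk (Fin.last m) - brk 0) := by
  have hnr : (0 : ℝ) < n := by exact_mod_cast hn
  rw [loopSum_eq brk α β hα hβ hn]
  refine (Finset.abs_sum_le_sum_abs _ _).trans ?_
  have h1 : ∀ k : Fin m, |∑ i ∈ range n,
      (α (arc brk k ((i : ℝ) / n)) + α (arc brk k (((i + 1 : ℕ) : ℝ) / n)))
        * (β (arc brk k (((i + 1 : ℕ) : ℝ) / n)) - β (arc brk k ((i : ℝ) / n)))|
      ≤ 2 * η * Λ * (brk k.succ - brk k.castSucc) := by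
    intro k
    have hk : 0 < brk k.succ - brk k.castSucc :=
      sub_pos.mpr (hmono (Fin.castSucc_lt_succ))
    refine (Finset.abs_sum_le_sum_abs _ _).trans ?_
    have h2 : ∀ i ∈ range n, |(α (arc brk k ((i : ℝ) / n))
          + α (arc brk k (((i + 1 : ℕ) : ℝ) / n)))
        * (β (arc brk k (((i + 1 : ℕ) : ℝ) / n)) - β (arc brk k ((i : ℝ) / n)))|
        ≤ 2 * η * Λ * (brk k.succ - brk k.castSucc) / n := by
      intro i _
      rw [abs_mul]
      have e1 : |α (arc brk k ((i : ℝ) / n)) + α (arc brk k (((i + 1 : ℕ) : ℝ) / n))|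
          ≤ 2 * η := by
        refine (abs_add_le _ _).trans ?_
        have := hη (arc brk k ((i : ℝ) / n))
        have := hη (arc brk k (((i + 1 : ℕ) : ℝ) / n))
        linarith
      have e2 : |β (arc brk k (((i + 1 : ℕ) : ℝ) / n)) - β (arc brk k ((i : ℝ) / n))|
          ≤ Λ * ((brk k.succ - brk k.castSucc) / n) := by
        refine (hΛ _ _).trans (le_of_eq ?_)
        congr 1
        unfold arc
        have : brk k.castSucc + ((i + 1 : ℕ) : ℝ) / n * (brk k.succ - brk k.castSucc)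
            - (brk k.castSucc + (i : ℝ) / n * (brk k.succ - brk k.castSucc))
            = (brk k.succ - brk k.castSucc) / n := by
          push_cast; field_simp; ring
        rw [this, abs_of_pos (by positivity)]
      calc _ ≤ 2 * η * (Λ * ((brk k.succ - brk k.castSucc) / n)) :=
            mul_le_mul e1 e2 (abs_nonneg _) (by positivity)
        _ = 2 * η * Λ * (brk k.succ - brk k.castSucc) / n := by ring
    refine (Finset.sum_le_sum h2).trans (le_of_eq ?_)
    rw [Finset.sum_const, card_range, nsmul_eq_mul]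
    field_simp
  refine (Finset.sum_le_sum (fun k _ => h1 k)).trans (le_of_eq ?_)
  rw [← Finset.mul_sum, fin_telescope brk]

lemma loopSum_add_left (α α' β : ℝ → ℝ) (n : ℕ) :
    loopSum brk (fun t => α t + α' t) β n = loopSum brk α β n + loopSum brk α' β n := by
  unfold loopSum edge
  rw [← Finset.sum_add_distrib]
  apply Finset.sum_congr rfl
  intro k _
  rw [← Finset.sum_add_distrib]
  apply Finset.sum_congr rfl
  intro i _
  ring

lemma loopSum_add_right (α β β' : ℝ → ℝ) (n : ℕ) :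
    loopSum brk α (fun t => β t + β' t) n = loopSum brk α β n + loopSum brk α β' n := by
  unfold loopSum edge
  rw [← Finset.sum_add_distrib]
  apply Finset.sum_congr rfl
  intro k _
  rw [← Finset.sum_add_distrib]
  apply Finset.sum_congr rfl
  intro i _
  ring

lemma tendsto_n_mul_sin (c : ℝ) :
    Tendsto (fun n : ℕ => (n : ℝ) * sin (c / n)) atTop (𝓝 c) := by
  by_cases hc : c = 0
  · subst hc; simp
  have h1 : Tendsto (fun x : ℝ => sin x / x) (𝓝[≠] 0) (𝓝 1) := by
    have h2 := (hasDerivAt_iff_tendsto_slope.mp (hasDerivAt_sin 0))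
    rw [cos_zero] at h2
    refine h2.congr ?_
    intro x
    simp [slope_def_field]
  have h3 : Tendsto (fun n : ℕ => c / (n : ℝ)) atTop (𝓝[≠] 0) := by
    rw [tendsto_nhdsWithin_iff]
    refine ⟨tendsto_const_div_atTop_nhds_zero_nat c, ?_⟩
    filter_upwards [eventually_gt_atTop 0] with n hn
    have : (n : ℝ) ≠ 0 := by exact_mod_cast hn.ne'
    exact div_ne_zero hc this
  have h4 := (h1.comp h3).const_mul c
  rw [mul_one] at h4
  refine h4.congr' ?_
  filter_upwards [eventually_gt_atTop 0] with n hn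
  have : (n : ℝ) ≠ 0 := by exact_mod_cast hn.ne'
  simp only [Function.comp]
  field_simp

lemma loopSum_exact (c : ℝ) (q : ℕ) :
    Tendsto (fun n : ℕ => loopSum brk (fun t => c * cos (q * t)) (fun t => c * sin (q * t)) n)
      atTop (𝓝 (c ^ 2 * q * (brk (Fin.last m) - brk 0))) := by
  have h1 : ∀ n : ℕ, 0 < n →
      loopSum brk (fun t => c * cos (q * t)) (fun t => c * sin (q * t)) n
      = ∑ k : Fin m, c ^ 2 * ((n : ℝ) * sin (q * (brk k.succ - brk k.castSucc) / n)) := by
    intro n hn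
    have hnr : (n : ℝ) ≠ 0 := by exact_mod_cast hn.ne'
    unfold loopSum edge
    apply Finset.sum_congr rfl
    intro k _
    have h2 : ∀ i ∈ range n, c * cos (q * arc brk k ((i : ℝ) / n))
          * (c * sin (q * arc brk k (((i + 1 : ℕ) : ℝ) / n)))
        - c * cos (q * arc brk k (((i + 1 : ℕ) : ℝ) / n))
          * (c * sin (q * arc brk k ((i : ℝ) / n)))
        = c ^ 2 * sin (q * (brk k.succ - brk k.castSucc) / n) := by
      intro i _
      have h3 : (q : ℝ) * (brk k.succ - brk k.castSucc) / n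
          = q * arc brk k (((i + 1 : ℕ) : ℝ) / n) - q * arc brk k ((i : ℝ) / n) := by
        unfold arc
        push_cast
        field_simp
        ring
      rw [h3, sin_sub]
      ring
    rw [Finset.sum_congr rfl h2, Finset.sum_const, card_range, nsmul_eq_mul]
    ring
  have h4 : Tendsto (fun n : ℕ => ∑ k : Fin m,
      c ^ 2 * ((n : ℝ) * sin (q * (brk k.succ - brk k.castSucc) / n))) atTop
      (𝓝 (∑ k : Fin m, c ^ 2 * (q * (brk k.succ - brk k.castSucc)))) :=
    tendsto_finsetSum _ (fun k _ => (tendsto_n_mul_sin _).const_mul _)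
  have h5 : ∑ k : Fin m, c ^ 2 * (q * (brk k.succ - brk k.castSucc))
      = c ^ 2 * q * (brk (Fin.last m) - brk 0) := by
    rw [← Finset.mul_sum, ← Finset.mul_sum, fin_telescope brk]
    ring
  rw [h5] at h4
  refine h4.congr' ?_
  filter_upwards [eventually_gt_atTop 0] with n hn
  exact (h1 n hn).symm

end

end Pool.Agent.H115R3.Filling
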