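import Mathlib
import Pool.Agent.H115R3.Filling.Defs
import Pool.Agent.H115R3.Filling.Limit
import Pool.Agent.H115R3.Filling.Loop

/-! # Lower bound for the area of orientable fillings of the circle -/

open Finset Real MeasureTheory Filter Topology Set

namespace Pool.Agent.H115R3.Filling

/-! ### Discrete Stokes theorem on one square -/

lemma cells_eq (u w : ℝ × ℝ → ℝ) {n : ℕ} (hn : 0 < n) :
    ∑ c ∈ (Finset.range n ×ˢ Finset.range n : Finset (ℕ × ℕ)), cellSum u w n c.1 c.2
      = (∑ s : Fin 4, edge (fun t => u (side s t)) (fun t => w (side s t)) n) / 2 := by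
  have hnr : (n : ℝ) ≠ 0 := by exact_mod_cast hn.ne'
  set h : ℕ → ℕ → ℝ := fun a b => cr u w (gp n a b) (gp n (a + 1) b) with hh
  set v : ℕ → ℕ → ℝ := fun a b => cr u w (gp n a b) (gp n a (b + 1)) with hv
  have h1 : ∀ a b, cellSum u w n a b
      = ((h a b - h a (b + 1)) + (v (a + 1) b - v a b)) / 2 := by
    intro a b
    simp only [hh, hv]
    unfold cellSum cr
    ring
  rw [Finset.sum_product]
  simp only
  simp_rw [h1]
  simp_rw [← Finset.sum_div, Finset.sum_add_distrib]
  congr 1
  have h2 : ∀ a, ∑ b ∈ range n, (h a b - h a (b + 1)) = h a 0 - h a n := by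
    intro a
    exact Finset.sum_range_sub' _ _
  have h3 : ∑ a ∈ range n, ∑ b ∈ range n, (v (a + 1) b - v a b)
      = ∑ b ∈ range n, (v n b - v 0 b) := by
    rw [Finset.sum_comm]
    apply Finset.sum_congr rfl
    intro b _
    exact Finset.sum_range_sub (fun a => v a b) n
  rw [h3]
  simp_rw [h2]
  rw [Fin.sum_univ_four]
  -- the four sides
  have s0 : edge (fun t => u (side 0 t)) (fun t => w (side 0 t)) n = ∑ a ∈ range n, h a 0 := by
    unfold edge
    apply Finset.sum_congr rfl
    intro a _
    simp only [hh, cr, gp, side, Nat.cast_zero, zero_div]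
  have s1 : edge (fun t => u (side 1 t)) (fun t => w (side 1 t)) n = ∑ b ∈ range n, v n b := by
    unfold edge
    apply Finset.sum_congr rfl
    intro b _
    simp only [hv, cr, gp, side, div_self hnr]
  have s2 : edge (fun t => u (side 2 t)) (fun t => w (side 2 t)) n
      = -∑ a ∈ range n, h a n := by
    have e1 : edge (fun t => u (side 2 t)) (fun t => w (side 2 t)) n
        = edge (fun t => (fun s => u (s, 1)) (1 - t)) (fun t => (fun s => w (s, 1)) (1 - t)) n :=
      rfl
    rw [e1, edge_reverse (fun s => u (s, 1)) (fun s => w (s, 1)) n]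
    congr 1
    unfold edge
    apply Finset.sum_congr rfl
    intro a _
    simp only [hh, cr, gp, div_self hnr]
  have s3 : edge (fun t => u (side 3 t)) (fun t => w (side 3 t)) n
      = -∑ b ∈ range n, v 0 b := by
    have e1 : edge (fun t => u (side 3 t)) (fun t => w (side 3 t)) n
        = edge (fun t => (fun s => u (0, s)) (1 - t)) (fun t => (fun s => w (0, s)) (1 - t)) n :=
      rfl
    rw [e1, edge_reverse (fun s => u (0, s)) (fun s => w (0, s)) n]
    congr 1
    unfold edge
    apply Finset.sum_congr rfl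
    intro a _
    simp only [hv, cr, gp, Nat.cast_zero, zero_div]
  rw [s0, s1, s2, s3, Finset.sum_sub_distrib, Finset.sum_sub_distrib]
  ring

/-! ### Extension of the distance functions -/

section

variable {M : Type} [MetricSpace M]

/-- McShane type extension of the distance function to the point `θ` of the circle. -/
noncomputable def ext (β : AddCircle (2 * π) → M) (θ : AddCircle (2 * π)) (x : M) : ℝ :=
  ⨅ t : AddCircle (2 * π), (dist θ t + dist (β t) x)

lemma ext_bdd (β : AddCircle (2 * π) → M) (θ : AddCircle (2 * π)) (x : M) :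
    BddBelow (Set.range fun t : AddCircle (2 * π) => (dist θ t + dist (β t) x)) :=
  ⟨0, by rintro _ ⟨t, rfl⟩; positivity⟩

lemma ext_boundary {β : AddCircle (2 * π) → M} (hβ : ∀ x y, dist x y ≤ dist (β x) (β y))
    (θ s : AddCircle (2 * π)) : ext β θ (β s) = dist θ s := by
  unfold ext
  apply le_antisymm
  · refine (ciInf_le (ext_bdd β θ (β s)) s).trans ?_
    simp
  · apply le_ciInf
    intro t
    have := hβ t s
    have := dist_triangle θ t s
    linarith

lemma ext_lip (β : AddCircle (2 * π) → M) (θ : AddCircle (2 * π)) (x y : M) :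
    |ext β θ x - ext β θ y| ≤ dist x y := by
  have key : ∀ x y : M, ext β θ x ≤ ext β θ y + dist x y := by
    intro x y
    unfold ext
    rw [← sub_le_iff_le_add]
    apply le_ciInf
    intro t
    have h1 := ciInf_le (ext_bdd β θ x) t
    have h2 := dist_triangle (β t) y x
    rw [dist_comm y x] at h2
    linarith
  rw [abs_le]
  constructor
  · have := key y x
    rw [dist_comm] at this
    linarith
  · have := key x y
    linarith

variable (S : OrientedSurface M)

/-- The sum over all sides of the edge sums is the loop sum along the boundary. -/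
lemma sum_sides (U W : M → ℝ) (n : ℕ) :
    ∑ s : Fin S.faces × Fin 4, edge (fun t => U (S.chart s.1 (side s.2 t)))
        (fun t => W (S.chart s.1 (side s.2 t))) n
      = loopSum S.brk (fun t => U (S.boundary (t : AddCircle (2 * π))))
        (fun t => W (S.boundary (t : AddCircle (2 * π)))) n := by
  classical
  set e : Fin S.faces × Fin 4 → ℝ := fun s => edge (fun t => U (S.chart s.1 (side s.2 t)))
        (fun t => W (S.chart s.1 (side s.2 t))) n with he
  have hint : ∑ s ∈ S.interior, e s = 0 := by
    apply Finset.sum_involution (fun s _ => S.pair s)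
    · intro s hs
      have h1 : e (S.pair s) = -e s := by
        simp only [he]
        rw [← edge_reverse]
        apply edge_congr
        · intro t ht
          rw [S.glue s hs t ht]
        · intro t ht
          rw [S.glue s hs t ht]
      rw [h1]; ring
    · intro s hs _
      exact S.pair_ne s hs
    · intro s hs
      exact S.pair_mem s hs
    · intro s hs
      exact S.pair_pair s hs
  have hbdry : ∑ s ∈ S.interiorᶜ, e s = ∑ k : Fin S.arcs, e (S.arcSide k) := by
    symm
    apply Finset.sum_bij (fun k _ => S.arcSide k)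
    · intro k _
      rw [Finset.mem_compl]
      exact (S.arcSide_range _).mpr ⟨k, rfl⟩
    · intro k _ l _ h
      exact S.arcSide_injective h
    · intro s hs
      rw [Finset.mem_compl] at hs
      obtain ⟨k, hk⟩ := (S.arcSide_range s).mp hs
      exact ⟨k, Finset.mem_univ _, hk⟩
    · intro k _
      rfl
  have hsplit : ∑ s : Fin S.faces × Fin 4, e s
      = ∑ s ∈ S.interior, e s + ∑ s ∈ S.interiorᶜ, e s :=
    (Finset.sum_add_sum_compl S.interior e).symm
  rw [hsplit, hint, zero_add, hbdry]
  unfold loopSum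
  apply Finset.sum_congr rfl
  intro k _
  simp only [he]
  apply edge_congr
  · intro t ht
    rw [S.boundary_eq k t ht]
    rfl
  · intro t ht
    rw [S.boundary_eq k t ht]
    rfl

lemma brk_diff : S.brk (Fin.last S.arcs) - S.brk 0 = 2 * π := by
  rw [S.brk_last, S.brk_zero, sub_zero]

/-- Lower bound with sampling error. -/
lemma area_lower (hS : S.NoShortcut) (K : Finset ℕ) (hKodd : ∀ k ∈ K, Odd k) (N : ℕ)
    (hKN : ∀ k ∈ K, k < N) (hN : 0 < N) :
    ∑ k ∈ K, (16 / (π * k ^ 3) - 32 * π ^ 2 * (1 + π * k) / N) ≤ S.area := by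
  have hNr : (0 : ℝ) < N := by exact_mod_cast hN
  have hK : ∀ k ∈ K, 0 < k ∧ k < N := by
    intro k hk
    refine ⟨?_, hKN k hk⟩
    have := hKodd k hk
    exact this.pos
  -- the extended functions
  set F : ℕ → M → ℝ := fun j => ext S.boundary (((π * j / N : ℝ)) : AddCircle (2 * π)) with hF
  have hFb : ∀ j (t : ℝ), F j (S.boundary (t : AddCircle (2 * π))) = samp N t j := by
    intro j t
    simp only [hF, samp]
    rw [ext_boundary hS, dist_eq_rho]
  have hFl : ∀ i j, SegLip (S.metric i) (fun p => F j (S.chart i p)) := by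
    intro i j p hp q hq
    refine (ext_lip _ _ _ _).trans ?_
    rw [dist_comm]
    exact S.dist_le i p hp q hq
  have hlim := fun i => square_limit (S.metric i) N hN K hK (fun j p => F j (S.chart i p))
    (hFl i)
  choose L hL1 hL2 using hlim
  -- the sum over all faces
  have hsum : Tendsto (fun n : ℕ => ∑ i, ∑ k ∈ K,
      ∑ c ∈ (Finset.range n ×ˢ Finset.range n : Finset (ℕ × ℕ)),
        cellSum (fun p => fc N (fun j => F j (S.chart i p)) k)
          (fun p => fs N (fun j => F j (S.chart i p)) k) n c.1 c.2) atTop (𝓝 (∑ i, L i)) :=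
    tendsto_finsetSum _ (fun i _ => hL2 i)
  have hLle : ∑ i, L i ≤ S.area := Finset.sum_le_sum (fun i _ => hL1 i)
  refine le_trans ?_ hLle
  -- rewrite as loop sums
  set α : ℕ → ℝ → ℝ := fun k t => fc N (samp N t) k with hα
  set β : ℕ → ℝ → ℝ := fun k t => fs N (samp N t) k with hβ
  have hrew : ∀ n : ℕ, 0 < n → ∑ i, ∑ k ∈ K,
      ∑ c ∈ (Finset.range n ×ˢ Finset.range n : Finset (ℕ × ℕ)),
        cellSum (fun p => fc N (fun j => F j (S.chart i p)) k)
          (fun p => fs N (fun j => F j (S.chart i p)) k) n c.1 c.2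
      = ∑ k ∈ K, loopSum S.brk (α k) (β k) n / 2 := by
    intro n hn
    rw [Finset.sum_comm]
    apply Finset.sum_congr rfl
    intro k _
    have e1 : ∀ i, ∑ c ∈ (Finset.range n ×ˢ Finset.range n : Finset (ℕ × ℕ)),
        cellSum (fun p => fc N (fun j => F j (S.chart i p)) k)
          (fun p => fs N (fun j => F j (S.chart i p)) k) n c.1 c.2
        = (∑ s : Fin 4, edge (fun t => fc N (fun j => F j (S.chart i (side s t))) k)
            (fun t => fs N (fun j => F j (S.chart i (side s t))) k) n) / 2 :=
      fun i => cells_eq _ _ hn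
    simp_rw [e1]
    rw [← Finset.sum_div]
    congr 1
    have e2 := sum_sides S (fun x => fc N (fun j => F j x) k) (fun x => fs N (fun j => F j x) k) n
    rw [← Finset.univ_product_univ, Finset.sum_product] at e2
    simp only at e2
    rw [e2]
    unfold loopSum
    apply Finset.sum_congr rfl
    intro l _
    have e3 : ∀ t : ℝ, (fun j => F j (S.boundary (t : AddCircle (2 * π)))) = samp N t := by
      intro t
      funext j
      exact hFb j t
    simp only [e3, hα, hβ]
  have hsum2 : Tendsto (fun n : ℕ => ∑ k ∈ K, loopSum S.brk (α k) (β k) n / 2) atTop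
      (𝓝 (∑ i, L i)) := by
    refine hsum.congr' ?_
    filter_upwards [eventually_gt_atTop 0] with n hn using hrew n hn
  -- the exact loops
  set c : ℕ → ℝ := fun k => -4 / (π * k ^ 2) with hc
  have hexact : Tendsto (fun n : ℕ => ∑ k ∈ K,
      (loopSum S.brk (fun t => c k * cos (k * t)) (fun t => c k * sin (k * t)) n / 2
        - 32 * π ^ 2 * (1 + π * k) / N)) atTop
      (𝓝 (∑ k ∈ K, (c k ^ 2 * k * (S.brk (Fin.last S.arcs) - S.brk 0) / 2
        - 32 * π ^ 2 * (1 + π * k) / N))) :=
    tendsto_finsetSum _ (fun k _ => ((loopSum_exact S.brk (c k) k).div_const 2).sub_const _)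
  have hval : ∑ k ∈ K, (c k ^ 2 * k * (S.brk (Fin.last S.arcs) - S.brk 0) / 2
        - 32 * π ^ 2 * (1 + π * k) / N)
      = ∑ k ∈ K, (16 / (π * k ^ 3) - 32 * π ^ 2 * (1 + π * k) / N) := by
    apply Finset.sum_congr rfl
    intro k hk
    have hk0 : (k : ℝ) ≠ 0 := by exact_mod_cast (hK k hk).1.ne'
    rw [brk_diff]
    simp only [hc]
    field_simp
    ring
  rw [hval] at hexact
  refine le_of_tendsto_of_tendsto hexact hsum2 ?_
  filter_upwards [eventually_gt_atTop 0] with n hn
  apply Finset.sum_le_sum
  intro k hk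
  have hkodd := hKodd k hk
  have hkpos : (1 : ℝ) ≤ k := by exact_mod_cast (hK k hk).1
  set η : ℝ := 2 * π * (1 + π * k) / N with hη
  have hη0 : 0 ≤ η := by positivity
  -- periodicity
  have hsper : ∀ j, samp N (S.brk (Fin.last S.arcs)) j = samp N (S.brk 0) j := by
    intro j
    unfold samp
    rw [S.brk_last, S.brk_zero, sub_zero]
    have := rho_periodic (π * j / N - 2 * π)
    rw [← this]
    congr 1
    ring
  have hαper : α k (S.brk (Fin.last S.arcs)) = α k (S.brk 0) := by
    simp only [hα]
    congr 1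
    funext j
    exact hsper j
  have hβper : β k (S.brk (Fin.last S.arcs)) = β k (S.brk 0) := by
    simp only [hβ]
    congr 1
    funext j
    exact hsper j
  have hcosper : c k * cos (k * S.brk (Fin.last S.arcs)) = c k * cos (k * S.brk 0) := by
    rw [S.brk_last, S.brk_zero, mul_zero, cos_zero, cos_nat_mul_two_pi]
  have hsinper : c k * sin (k * S.brk (Fin.last S.arcs)) = c k * sin (k * S.brk 0) := by
    rw [S.brk_last, S.brk_zero, mul_zero, sin_zero]
    have : sin (k * (2 * π)) = 0 := by
      have := sin_nat_mul_pi (2 * k)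
      push_cast at this
      rw [← this]
      congr 1
      ring
    rw [this]
  -- closeness
  have hclose1 : ∀ t, |α k t - c k * cos (k * t)| ≤ η := fun t => fc_samp hN hkodd t
  have hclose2 : ∀ t, |β k t - c k * sin (k * t)| ≤ η := fun t => fs_samp hN hkodd t
  -- Lipschitz bounds
  have hβlip : ∀ s t, |β k s - β k t| ≤ 2 * |s - t| := by
    intro s t
    apply fs_diff_le hN
    intro j _
    unfold samp
    have := rho_sub_le (π * j / N - s) (π * j / N - t)
    have e : π * j / N - s - (π * j / N - t) = -(s - t) := by ring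
    rwa [e, abs_neg] at this
  have hck : |c k| * k ≤ 2 := by
    simp only [hc]
    rw [abs_div, abs_neg, abs_of_pos (by norm_num : (0 : ℝ) < 4),
      abs_of_pos (by positivity : 0 < π * (k : ℝ) ^ 2), div_mul_eq_mul_div,
      div_le_iff₀ (by positivity)]
    have hpi : (3 : ℝ) < π := pi_gt_three
    have hk1 : (k : ℝ) ≤ (k : ℝ) ^ 2 := by nlinarith
    nlinarith
  have hcoslip : ∀ s t, |c k * cos (k * s) - c k * cos (k * t)| ≤ 2 * |s - t| := by
    intro s t
    rw [← mul_sub, abs_mul]
    calc |c k| * |cos (k * s) - cos (k * t)| ≤ |c k| * |k * s - k * t| :=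
          mul_le_mul_of_nonneg_left (abs_cos_sub_cos_le _ _) (abs_nonneg _)
      _ = |c k| * k * |s - t| := by
          rw [← mul_sub, abs_mul, Nat.abs_cast, mul_assoc]
      _ ≤ 2 * |s - t| := mul_le_mul_of_nonneg_right hck (abs_nonneg _)
  -- decomposition
  have hdec1 : loopSum S.brk (α k) (β k) n
      = loopSum S.brk (fun t => c k * cos (k * t)) (β k) n
        + loopSum S.brk (fun t => α k t - c k * cos (k * t)) (β k) n := by
    rw [← loopSum_add_left]
    congr 1
    funext t
    ring
  have hdec2 : loopSum S.brk (fun t => c k * cos (k * t)) (β k) n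
      = loopSum S.brk (fun t => c k * cos (k * t)) (fun t => c k * sin (k * t)) n
        + loopSum S.brk (fun t => c k * cos (k * t)) (fun t => β k t - c k * sin (k * t)) n := by
    rw [← loopSum_add_right]
    congr 1
    funext t
    ring
  have hb1 := loopSum_small S.brk S.brk_strictMono
    (fun t => α k t - c k * cos (k * t)) (β k) (by simp only [hαper, hcosper]) hβper η 2
    hclose1 hη0 hβlip hn
  have hb2 := loopSum_small S.brk S.brk_strictMono
    (fun t => β k t - c k * sin (k * t)) (fun t => c k * cos (k * t))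
    (by simp only [hβper, hsinper]) hcosper η 2
    hclose2 hη0 hcoslip hn
  rw [loopSum_antisymm, abs_neg] at hb2
  rw [brk_diff] at hb1 hb2
  have hb1' := (abs_le.mp hb1).1
  have hb2' := (abs_le.mp hb2).1
  have hη2 : 32 * π ^ 2 * (1 + π * k) / N = 16 * π * η := by
    rw [hη]; ring
  have hη3 : 2 * η * 2 * (2 * π) = 8 * (π * η) := by ring
  have hη4 : 0 ≤ π * η := by positivity
  rw [hη3] at hb1' hb2'
  rw [hη2, hdec1, hdec2]
  linarith

/-- Lower bound by a finite sum. -/
lemma area_lower' (hS : S.NoShortcut) (K : Finset ℕ) (hKodd : ∀ k ∈ K, Odd k) :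
    ∑ k ∈ K, 16 / (π * k ^ 3) ≤ S.area := by
  have h1 : Tendsto (fun N : ℕ => ∑ k ∈ K, (16 / (π * (k : ℝ) ^ 3)
      - 32 * π ^ 2 * (1 + π * k) / (N : ℝ))) atTop
      (𝓝 (∑ k ∈ K, (16 / (π * (k : ℝ) ^ 3) - 0))) :=
    tendsto_finsetSum _ (fun k _ =>
      (tendsto_const_div_atTop_nhds_zero_nat (32 * π ^ 2 * (1 + π * k))).const_sub _)
  simp only [sub_zero] at h1
  refine le_of_tendsto h1 ?_
  obtain ⟨B, hB⟩ := K.bddAbove
  filter_upwards [eventually_gt_atTop B, eventually_gt_atTop 0] with N hN hN0
  exact area_lower S hS K hKodd N (fun k hk => lt_of_le_of_lt (hB hk) hN) hN0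

lemma summable_cubes : Summable (fun m : ℕ => 1 / ((m : ℝ) + 1) ^ 3) := by
  have h := (summable_nat_add_iff 1).mpr (Real.summable_one_div_nat_pow.mpr
    (by norm_num : 1 < 3))
  refine h.congr ?_
  intro m
  push_cast
  rfl

lemma summable_odd_cubes : Summable (fun m : ℕ => 1 / (2 * (m : ℝ) + 1) ^ 3) := by
  refine Summable.of_nonneg_of_le (fun m => by positivity) (fun m => ?_) summable_cubes
  apply one_div_le_one_div_of_le (by positivity)
  apply pow_le_pow_left₀ (by positivity)
  have : (0 : ℝ) ≤ m := by positivity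
  linarith

lemma tsum_odd_cubes :
    ∑' m : ℕ, 1 / (2 * (m : ℝ) + 1) ^ 3 = 7 / 8 * ∑' m : ℕ, 1 / ((m : ℝ) + 1) ^ 3 := by
  set f : ℕ → ℝ := fun m => 1 / ((m : ℝ) + 1) ^ 3 with hf
  have e1 : ∀ m : ℕ, f (2 * m) = 1 / (2 * (m : ℝ) + 1) ^ 3 := by
    intro m
    simp only [hf]
    push_cast
    rfl
  have e2 : ∀ m : ℕ, f (2 * m + 1) = 1 / 8 * f m := by
    intro m
    have h0 : (m : ℝ) + 1 ≠ 0 := by positivity
    have h1 : (2 * (m : ℝ) + 1 + 1) = 2 * (m + 1) := by ring
    simp only [hf]
    push_cast
    rw [h1, mul_pow]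
    field_simp
    norm_num
  have hs1 : Summable (fun m => f (2 * m)) := by
    simp_rw [e1]
    exact summable_odd_cubes
  have hs2 : Summable (fun m => f (2 * m + 1)) := by
    simp_rw [e2]
    exact summable_cubes.mul_left _
  have h3 := tsum_even_add_odd hs1 hs2
  simp_rw [e1, e2] at h3
  rw [tsum_mul_left] at h3
  linarith

/-- **Main theorem.** -/
theorem area_ge (hS : S.NoShortcut) :
    14 * (∑' m : ℕ, 1 / ((m : ℝ) + 1) ^ 3) / π ≤ S.area := by
  have hs := summable_odd_cubes
  have h1 : ∀ n : ℕ, 16 / π * ∑ m ∈ Finset.range n, 1 / (2 * (m : ℝ) + 1) ^ 3 ≤ S.area := by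
    intro n
    have h2 := area_lower' S hS ((Finset.range n).image (fun m => 2 * m + 1)) (by
      intro k hk
      obtain ⟨m, -, rfl⟩ := Finset.mem_image.mp hk
      exact ⟨m, rfl⟩)
    rw [Finset.sum_image (by intro a _ b _ h; simpa using h)] at h2
    refine le_trans (le_of_eq ?_) h2
    rw [Finset.mul_sum]
    apply Finset.sum_congr rfl
    intro m _
    push_cast
    have : (2 * (m : ℝ) + 1) ≠ 0 := by positivity
    field_simp
  have h3 : Tendsto (fun n : ℕ => 16 / π * ∑ m ∈ Finset.range n, 1 / (2 * (m : ℝ) + 1) ^ 3) atTop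
      (𝓝 (16 / π * ∑' m : ℕ, 1 / (2 * (m : ℝ) + 1) ^ 3)) :=
    hs.hasSum.tendsto_sum_nat.const_mul _
  have h4 := le_of_tendsto' h3 h1
  rw [tsum_odd_cubes] at h4
  refine le_trans (le_of_eq ?_) h4
  ring

end

end Pool.Agent.H115R3.Filling
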